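import Pool.Agent.W534.PoleDefs
import Pool.Agent.H914R2.StdDefs

/-!
# Semisimplicity for small defects: definitions
-/

set_option autoImplicit false

open CategoryTheory AlgebraicGeometry

universe u v

namespace Pool.Agent.L7h89.SS

open Pool.Agent.H914 Pool.Agent.W534 VarClass Obj WeilCohomology

section Lin

variable {K V : Type*} [Field K] [AddCommGroup V] [Module K V]

/-- The form on a subspace, as a map to the dual space. -/
def formOn (φ : V →ₗ[K] V →ₗ[K] K) (A : Submodule K V) : A →ₗ[K] Module.Dual K A :=
  LinearMap.domRestrict₁₂ φ A A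

/-- The rank of the restriction of a bilinear form to a subspace. -/
noncomputable def rankOn (φ : V →ₗ[K] V →ₗ[K] K) (A : Submodule K V) : ℕ :=
  Module.finrank K (LinearMap.range (formOn φ A))

/-- The dimension of a subspace. -/
noncomputable def dimOf (A : Submodule K V) : ℕ := Module.finrank K A

/-- The vectors of the subspace `G` on which `f` acts as multiplication by `c`. -/
def eigIn (f : V →ₗ[K] V) (c : K) (G : Submodule K V) : Submodule K V :=
  LinearMap.ker (f - c • LinearMap.id) ⊓ G

end Lin

/-- The form `(x, y) ↦ t (a x y)` on an algebra. -/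
noncomputable def trForm {K A : Type*} [Field K] [Ring A] [Algebra K A] (t : A →ₗ[K] K) (a : A) :
    A →ₗ[K] A →ₗ[K] K :=
  ((LinearMap.mul K A).compr₂ t) ∘ₗ (LinearMap.mulLeft K a)

variable {k : Type u} [Field k] {𝒱 : VarClass k} {ops : CycleOps 𝒱}
  {W : WeilCohomology.{u, v} ops} {p : ℕ}

/-- The Tate classes of degree `2 j` over the field with `q = card Φ Z s` elements: the classes in
`H^(2 j)` on which the Frobenius endomorphism acts as multiplication by `q ^ j`. -/
noncomputable def tateAt (Φ : FrobSystem W p) (Z : 𝒱.Obj) (s j : ℕ) : Submodule W.K (W.H Z) :=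
  eigIn (W.map (iter (Φ.Fr Z) s)).toLinearMap ((card Φ Z s : W.K) ^ j) (W.gr Z (2 * j))

/-- The dimension of the space of the Tate classes of degree `2 j` over the field with
`card Φ Z s` elements. -/
noncomputable def tateDim (Φ : FrobSystem W p) (Z : 𝒱.Obj) (s j : ℕ) : ℕ :=
  dimOf (tateAt Φ Z s j)

/-- The multiplicity of the eigenvalue `q ^ j` of the Frobenius endomorphism on `H^(2 j)` over the
field with `q = card Φ Z s` elements: the dimension of the generalised eigenspace. -/
noncomputable def mult (Φ : FrobSystem W p) (Z : 𝒱.Obj) (s j : ℕ) : ℕ :=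
  dimOf (genTate Φ Z s j)

/-- The combinations of classes of algebraic cycles of codimension `j` which are Tate classes over
the field with `card Φ Z s` elements. -/
noncomputable def algAt (Φ : FrobSystem W p) (Z : 𝒱.Obj) (s j : ℕ) : Submodule W.K (W.H Z) :=
  spanCycles W Z j ⊓ tateAt Φ Z s j

/-- The form `(x, y) ↦ tr (ξ ^ (n - 2 j) x y)` on the cohomology of `Z`, where `ξ` is the class of `D`
and `n = dim Z`. -/
noncomputable def polForm (W : WeilCohomology.{u, v} ops) (Z : 𝒱.Obj) (D : Z.Cycles) (j : ℕ) :
    W.H Z →ₗ[W.K] W.H Z →ₗ[W.K] W.K :=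
  trForm (W.tr Z) ((W.cl Z D) ^ (Z.dim - 2 * j))

/-- The rank of the form on the algebraic classes over the field with `card Φ Z s` elements. -/
noncomputable def algRank (Φ : FrobSystem W p) (Z : 𝒱.Obj) (D : Z.Cycles) (s j : ℕ) : ℕ :=
  rankOn (polForm W Z D j) (algAt Φ Z s j)

/-- The semisimplicity for the eigenvalue `q ^ j` of the Frobenius endomorphism over the field with
`q = card Φ Z s` elements on `H^(2 j)`. -/
def SemiAt (Φ : FrobSystem W p) (Z : 𝒱.Obj) (s j : ℕ) : Prop :=
  genTate Φ Z s j ≤ tateAt Φ Z s j

/-- The hypothesis on the cycle `D`: nothing if `2 j` is the dimension of `Z`; otherwise `D` is a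
divisor for which the theorem of Lefschetz holds, and its class is defined over the field with
`card Φ Z s` elements. -/
def Polarises (Φ : FrobSystem W p) (Z : 𝒱.Obj) (D : Z.Cycles) (s j : ℕ) : Prop :=
  2 * j = Z.dim ∨ (2 * j ≤ Z.dim ∧ Z.IsCyc 1 D ∧ HardLefschetz W Z D ∧
    W.map (iter (Φ.Fr Z) s) (W.cl Z D) = (card Φ Z s : W.K) • W.cl Z D)

/-- Either Frobenius is semisimple in codimension `j` and in the complementary codimension, or the
multiplicity of the eigenvalue exceeds the dimension of the space of Tate classes by a positive even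
number and the rank of the algebraic classes is smaller than this dimension. -/
def SemisimpleOrLargeDefect (Φ : FrobSystem W p) (Z : 𝒱.Obj) (D : Z.Cycles) (s j : ℕ) : Prop :=
  (SemiAt Φ Z s j ∧ SemiAt Φ Z s (Z.dim - j)) ∨
    ∃ e : ℕ, mult Φ Z s j = tateDim Φ Z s j + 2 * (e + 1) ∧
      algRank Φ Z D s j + 1 ≤ tateDim Φ Z s j

end Pool.Agent.L7h89.SS
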