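import Pool.Agent.L7h89.SS.DDefs

/-!
# Unipotent isometries of quadratic spaces

Let `u` be a unipotent isometry of a nondegenerate quadratic space `V` and `A` a subspace fixed by
`u`. If `u` is not the identity, the number `dim V - dim ker (u - 1)` is even and positive, and the
rank of the form on `A` is smaller than the dimension of `ker (u - 1)`.
-/

set_option autoImplicit false

namespace Pool.Agent.L7h89.SS

open Module

variable {K : Type*} [Field K] [CharZero K] {V : Type*} [AddCommGroup V] [Module K V]
  [FiniteDimensional K V]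

/-- The rank of an alternating form is even. -/
theorem even_rank (ψ : V →ₗ[K] V →ₗ[K] K) (hψ : ∀ x y, ψ x y = - ψ y x) :
    ∃ r, finrank K V = finrank K (LinearMap.ker ψ) + 2 * r := by
  classical
  obtain ⟨C, hC⟩ := Submodule.exists_isCompl (LinearMap.ker ψ)
  have hsum := Submodule.finrank_add_eq_of_isCompl hC
  set n := finrank K C with hn
  let b : Basis (Fin n) K C := finBasis K C
  let M : Matrix (Fin n) (Fin n) K := Matrix.of fun i j => ψ (b i) (b j)
  have hMT : M.transpose = -M := by
    ext i j
    simp only [M, Matrix.transpose_apply, Matrix.of_apply, Matrix.neg_apply]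
    exact hψ _ _
  have hdet : M.det ≠ 0 := by
    intro h0
    obtain ⟨v, hv0, hv⟩ := Matrix.exists_mulVec_eq_zero_iff.2 h0
    set x : C := ∑ j, v j • b j with hx
    have h1 : ∀ i, ψ (b i) (x : V) = 0 := by
      intro i
      have h2 := congrFun hv i
      rw [Matrix.mulVec, dotProduct] at h2
      simp only [M, Matrix.of_apply, Pi.zero_apply] at h2
      rw [hx, Submodule.coe_sum, map_sum, ← h2]
      refine Finset.sum_congr rfl fun j _ => ?_
      rw [Submodule.coe_smul, map_smul, smul_eq_mul, mul_comm]
    have h2 : ∀ c : C, ψ (c : V) (x : V) = 0 := by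
      intro c
      have h3 : (c : V) = ∑ i, b.repr c i • (b i : V) := by
        have h4 := congrArg (Subtype.val) (b.sum_repr c)
        rw [Submodule.coe_sum] at h4
        rw [← h4]
        rfl
      rw [h3, map_sum, LinearMap.sum_apply]
      refine Finset.sum_eq_zero fun i _ => ?_
      rw [map_smul, LinearMap.smul_apply, h1, smul_zero]
    have h3 : (x : V) ∈ LinearMap.ker ψ := by
      rw [LinearMap.mem_ker]
      ext y
      have h4 : y ∈ LinearMap.ker ψ ⊔ C := by
        rw [hC.sup_eq_top]
        exact Submodule.mem_top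
      obtain ⟨r, hr, c, hc, rfl⟩ := Submodule.mem_sup.1 h4
      rw [map_add, hψ _ r, hψ _ c, LinearMap.mem_ker.1 hr, h2 ⟨c, hc⟩]
      simp
    have h4 : (x : V) = 0 := by
      have h5 := hC.disjoint
      rw [Submodule.disjoint_def] at h5
      exact h5 _ h3 x.2
    have h5 : x = 0 := Subtype.ext h4
    apply hv0
    have h6 := b.linearIndependent
    rw [Fintype.linearIndependent_iff] at h6
    funext i
    exact h6 v h5 i
  have h1 : M.det = (-1) ^ n * M.det := by
    conv_lhs => rw [← Matrix.det_transpose, hMT, Matrix.det_neg, Fintype.card_fin]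
  have h2 : ((-1 : K)) ^ n = 1 := by
    have h3 : (1 - (-1 : K) ^ n) * M.det = 0 := by
      rw [sub_mul, one_mul, ← h1, sub_self]
    have h4 := (mul_eq_zero.1 h3).resolve_right hdet
    exact (sub_eq_zero.1 h4).symm
  have h3 : Even n := by
    by_contra h
    rw [Nat.not_even_iff_odd] at h
    rw [h.neg_one_pow] at h2
    have h4 : (2 : K) = 0 := by linear_combination -h2
    exact two_ne_zero h4
  obtain ⟨r, hr⟩ := h3
  exact ⟨r, by omega⟩

/-- **Unipotent isometries.** -/
theorem unipotent_isometry (φ : V →ₗ[K] V →ₗ[K] K) (hsymm : ∀ x y, φ x y = φ y x)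
    (hnd : ∀ x, (∀ y, φ x y = 0) → x = 0) (u : Module.End K V)
    (hu : ∀ x y, φ (u x) (u y) = φ x y) {n : ℕ} (hn : (u - 1) ^ n = 0)
    (A : Submodule K V) (hA : ∀ a ∈ A, u a = a) (hne : u ≠ 1) :
    (∃ r, finrank K V = finrank K (LinearMap.ker (u - 1)) + 2 * (r + 1)) ∧
      finrank K (LinearMap.range (formOn φ A)) + 1 ≤
        finrank K (LinearMap.ker (u - 1)) := by
  classical
  have hap : ∀ x : V, (u - 1) x = u x - x := fun x => rfl
  -- the alternating form
  let ψ : V →ₗ[K] V →ₗ[K] K := φ ∘ₗ u - φ.compl₂ u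
  have hψ : ∀ x y : V, ψ x y = φ (u x) y - φ x (u y) := fun x y => rfl
  have hsurj : Function.Surjective (u + 1 : Module.End K V) := by
    rw [← LinearMap.injective_iff_surjective, injective_iff_map_eq_zero]
    intro y hy
    have h1 : (u - 1) y = (-2 : K) • y := by
      rw [LinearMap.add_apply, Module.End.one_apply] at hy
      rw [hap, eq_neg_of_add_eq_zero_left hy, neg_smul, two_smul]
      abel
    have h2 : ∀ k : ℕ, ((u - 1) ^ k) y = (-2 : K) ^ k • y := by
      intro k
      induction k with
      | zero => simp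
      | succ k ih => rw [pow_succ', Module.End.mul_apply, ih, map_smul, h1, smul_smul, pow_succ]
    have h3 := h2 n
    rw [hn, LinearMap.zero_apply] at h3
    exact (smul_eq_zero.1 h3.symm).resolve_left
      (pow_ne_zero _ (neg_ne_zero.2 two_ne_zero))
  have hker : LinearMap.ker ψ = LinearMap.ker (u - 1) := by
    ext x
    rw [LinearMap.mem_ker, LinearMap.mem_ker, hap]
    constructor
    · intro h
      apply hnd
      intro y
      obtain ⟨z, rfl⟩ := hsurj y
      have h1 : ψ x z = 0 := by rw [h, LinearMap.zero_apply]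
      rw [hψ] at h1
      rw [LinearMap.add_apply, Module.End.one_apply, map_sub, LinearMap.sub_apply, map_add, map_add,
        hu]
      linear_combination h1
    · intro h
      ext y
      rw [hψ, LinearMap.zero_apply]
      have h1 : u x = x := sub_eq_zero.1 h
      have h2 := hu x y
      rw [h1] at h2
      rw [h1, h2, sub_self]
  obtain ⟨r, hr⟩ := even_rank ψ (fun x y => by
    rw [hψ, hψ, hsymm (u y) x, hsymm y (u x)]
    ring)
  rw [hker] at hr
  have hlt : finrank K (LinearMap.ker (u - 1)) < finrank K V := by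
    rcases lt_or_eq_of_le (Submodule.finrank_le (LinearMap.ker (u - 1))) with h | h
    · exact h
    · exfalso
      apply hne
      have h1 := Submodule.eq_top_of_finrank_eq h
      rw [LinearMap.ker_eq_top] at h1
      exact sub_eq_zero.1 h1
  refine ⟨⟨r - 1, by omega⟩, ?_⟩
  -- a fixed vector in the image
  obtain ⟨x, hx0, hx1, z, hz⟩ : ∃ x : V, x ≠ 0 ∧ u x = x ∧ ∃ z, x = u z - z := by
    have hex : ∃ m, (u - 1) ^ m = 0 := ⟨n, hn⟩
    set m := Nat.find hex with hm
    have hm0 : (u - 1) ^ m = 0 := Nat.find_spec hex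
    have hm1 : 2 ≤ m := by
      by_contra hlt2
      have h3 : m = 0 ∨ m = 1 := by omega
      rcases h3 with h3 | h3
      · rw [h3, pow_zero] at hm0
        apply hne
        have h4 : ∀ v : V, v = 0 := fun v => by
          have h5 := LinearMap.congr_fun hm0 v
          rwa [Module.End.one_apply, LinearMap.zero_apply] at h5
        ext v
        rw [h4 (u v), h4 ((1 : Module.End K V) v)]
      · rw [h3, pow_one] at hm0
        exact hne (sub_eq_zero.1 hm0)
    obtain ⟨m', hm'⟩ : ∃ m', m = m' + 2 := ⟨m - 2, by omega⟩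
    have h4 : (u - 1) ^ (m' + 1) ≠ 0 := Nat.find_min hex (by omega)
    obtain ⟨v, hv⟩ : ∃ v, ((u - 1) ^ (m' + 1)) v ≠ 0 := by
      by_contra hcon
      push Not at hcon
      exact h4 (LinearMap.ext hcon)
    refine ⟨_, hv, ?_, ((u - 1) ^ m') v, ?_⟩
    · have h5 : (u - 1) (((u - 1) ^ (m' + 1)) v) = 0 := by
        rw [← Module.End.mul_apply, ← pow_succ', show m' + 1 + 1 = m by omega, hm0,
          LinearMap.zero_apply]
      rw [hap] at h5
      exact sub_eq_zero.1 h5
    · rw [pow_succ', Module.End.mul_apply, hap]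
  by_contra hcon
  have hAle : A ≤ LinearMap.ker (u - 1) := by
    intro a ha
    rw [LinearMap.mem_ker, hap, hA a ha, sub_self]
  have h1 := LinearMap.finrank_range_le (formOn φ A)
  have h2 := Submodule.finrank_mono hAle
  have h3 : A = LinearMap.ker (u - 1) :=
    Submodule.eq_of_le_of_finrank_le hAle (by omega)
  have h4 : Function.Injective (formOn φ A) := by
    rw [← LinearMap.ker_eq_bot, ← Submodule.finrank_eq_zero]
    have h5 := LinearMap.finrank_range_add_finrank_ker (formOn φ A)
    omega
  have hxA : x ∈ A := by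
    rw [h3, LinearMap.mem_ker, hap, hx1, sub_self]
  have h5 : formOn φ A ⟨x, hxA⟩ = 0 := by
    ext y
    change φ x (y : V) = 0
    have h6 := hu z y
    rw [hA y y.2] at h6
    rw [hz, map_sub, LinearMap.sub_apply, h6, sub_self]
  have h6 : (⟨x, hxA⟩ : A) = 0 := h4 (by rw [h5, map_zero])
  exact hx0 (congrArg Subtype.val h6)

end Pool.Agent.L7h89.SS
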