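import Pool.Agent.W534.PoleD
import Pool.Agent.L7h89.SS.Orth

/-!
# Semisimplicity for small defects
-/

set_option autoImplicit false
set_option linter.unusedSectionVars false

open CategoryTheory AlgebraicGeometry

universe u v

namespace Pool.Agent.L7h89.SS

open Pool.Agent.H914 Pool.Agent.W534 Pool.Agent.H447 VarClass Obj WeilCohomology Module

section Rank

variable {K : Type*} [Field K] {V : Type*} [AddCommGroup V] [Module K V]
  [FiniteDimensional K V]

/-- The rank of a form on a subspace of a subspace. -/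
theorem rank_formOn (φ : V →ₗ[K] V →ₗ[K] K) {A B : Submodule K V} (h : A ≤ B) :
    finrank K (LinearMap.range (formOn (φ.domRestrict₁₂ B B) (A.submoduleOf B))) =
      finrank K (LinearMap.range (formOn φ A)) := by
  let e : A.submoduleOf B ≃ₗ[K] A := Submodule.submoduleOfEquivOfLe h
  have h1 : formOn (φ.domRestrict₁₂ B B) (A.submoduleOf B) =
      (e.symm.dualMap.symm : Module.Dual K A →ₗ[K] Module.Dual K (A.submoduleOf B)) ∘ₗ
        (formOn φ A) ∘ₗ (e : A.submoduleOf B →ₗ[K] A) := by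
    ext x y
    rfl
  rw [h1, LinearMap.range_comp, LinearMap.range_comp_of_range_eq_top _ e.range]
  exact LinearEquiv.finrank_map_eq _ _

end Rank

variable {k : Type u} [Field k] {𝒱 : VarClass k} {ops : CycleOps 𝒱}
  {W : WeilCohomology.{u, v} ops} {p : ℕ}

variable (Φ : FrobSystem W p) {Z : 𝒱.Obj} {D : Z.Cycles} {s j : ℕ}

lemma mem_tateAt {x : W.H Z} : x ∈ tateAt Φ Z s j ↔
    frob Φ Z s x = ((card Φ Z s : W.K) ^ j) • x ∧ x ∈ W.gr Z (2 * j) := by
  rw [tateAt, eigIn, Submodule.mem_inf, LinearMap.mem_ker, LinearMap.sub_apply, sub_eq_zero]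
  rfl

lemma tateAt_le : tateAt Φ Z s j ≤ genTate Φ Z s j := fun _ hx =>
  mem_genTate_of_eig Φ ((mem_tateAt Φ).1 hx).2 ((mem_tateAt Φ).1 hx).1

lemma polForm_apply (x y : W.H Z) : polForm W Z D j x y =
    W.tr Z ((W.cl Z D) ^ (Z.dim - 2 * j) * x * y) := rfl

variable {Φ}

lemma Polarises.le (h : Polarises Φ Z D s j) : 2 * j ≤ Z.dim := by
  rcases h with h | h
  · exact h.le
  · exact h.1

/-- the power of the class of the divisor -/
lemma Polarises.frob_pow (h : Polarises Φ Z D s j) (y : W.H Z) :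
    frob Φ Z s ((W.cl Z D) ^ (Z.dim - 2 * j) * y) =
      (card Φ Z s : W.K) ^ (Z.dim - 2 * j) • ((W.cl Z D) ^ (Z.dim - 2 * j) * frob Φ Z s y) := by
  have h1 : frob Φ Z s ((W.cl Z D) ^ (Z.dim - 2 * j)) =
      (card Φ Z s : W.K) ^ (Z.dim - 2 * j) • (W.cl Z D) ^ (Z.dim - 2 * j) := by
    rcases h with h | h
    · rw [show Z.dim - 2 * j = 0 by omega, pow_zero, pow_zero, one_smul, frob_apply, map_one]
    · rw [frob_apply, map_pow, h.2.2.2, smul_pow]
  rw [frob_apply, map_mul, ← frob_apply, ← frob_apply, h1, smul_mul_assoc]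

lemma cl_pow_mem (hD : Z.IsCyc 1 D) (a : ℕ) : (W.cl Z D) ^ a ∈ W.gr Z (2 * a) := by
  induction a with
  | zero =>
    rw [pow_zero, mul_zero]
    exact (W.isPoincareAlgebra Z).one_mem
  | succ a ih =>
    rw [pow_succ]
    exact W.mul_mem ih (W.cl_mem hD)

lemma Polarises.gr (h : Polarises Φ Z D s j) {x : W.H Z} (hx : x ∈ W.gr Z (2 * j)) :
    (W.cl Z D) ^ (Z.dim - 2 * j) * x ∈ W.gr Z (2 * (Z.dim - j)) := by
  rcases h with h | h
  · rw [show Z.dim - 2 * j = 0 by omega, pow_zero, one_mul, show Z.dim - j = j by omega]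
    exact hx
  · have h1 := W.mul_mem (cl_pow_mem h.2.1 (Z.dim - 2 * j)) hx
    have h2 := h.1
    rwa [show 2 * (Z.dim - 2 * j) + 2 * j = 2 * (Z.dim - j) by omega] at h1

lemma Polarises.inj (h : Polarises Φ Z D s j) {x : W.H Z} (hx : x ∈ W.gr Z (2 * j))
    (h0 : (W.cl Z D) ^ (Z.dim - 2 * j) * x = 0) : x = 0 := by
  rcases h with h | h
  · rw [show Z.dim - 2 * j = 0 by omega, pow_zero, one_mul] at h0
    exact h0
  · refine (h.2.2.1 (2 * j) h.1).1 x hx ?_
    have h1 : ∀ (m : ℕ) (y : W.H Z), ((LinearMap.mulLeft W.K (W.cl Z D)) ^ m) y =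
        (W.cl Z D) ^ m * y := by
      intro m
      induction m with
      | zero => intro y; simp
      | succ m ih =>
        intro y
        rw [pow_succ', Module.End.mul_apply, ih, LinearMap.mulLeft_apply, pow_succ', mul_assoc]
    rw [h1]
    exact h0

/-- The product with the power of the class of the divisor. -/
lemma Polarises.gen (h : Polarises Φ Z D s j) {x : W.H Z} (hx : x ∈ genTate Φ Z s j) :
    (W.cl Z D) ^ (Z.dim - 2 * j) * x ∈ genTate Φ Z s (Z.dim - j) := by
  obtain ⟨⟨n, hn⟩, hxg⟩ := (mem_genTate Φ).1 hx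
  refine (mem_genTate Φ).2 ⟨⟨n, ?_⟩, h.gr hxg⟩
  have hle := h.le
  have key : ∀ (m : ℕ) (y : W.H Z), ((frob Φ Z s - ((card Φ Z s : W.K) ^ (Z.dim - j)) •
      (1 : Module.End W.K (W.H Z))) ^ m) ((W.cl Z D) ^ (Z.dim - 2 * j) * y) =
      ((card Φ Z s : W.K) ^ (Z.dim - 2 * j)) ^ m • ((W.cl Z D) ^ (Z.dim - 2 * j) *
        (((frob Φ Z s - ((card Φ Z s : W.K) ^ j) • (1 : Module.End W.K (W.H Z))) ^ m) y)) := by
    intro m
    induction m with
    | zero => intro y; simp
    | succ m ih =>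
      intro y
      have h2 : (card Φ Z s : W.K) ^ (Z.dim - j) =
          (card Φ Z s : W.K) ^ (Z.dim - 2 * j) * (card Φ Z s : W.K) ^ j := by
        rw [← pow_add]
        congr 1
        omega
      have h3 : (frob Φ Z s - ((card Φ Z s : W.K) ^ (Z.dim - j)) •
          (1 : Module.End W.K (W.H Z))) ((W.cl Z D) ^ (Z.dim - 2 * j) * y) =
          ((card Φ Z s : W.K) ^ (Z.dim - 2 * j)) • ((W.cl Z D) ^ (Z.dim - 2 * j) *
            ((frob Φ Z s - ((card Φ Z s : W.K) ^ j) • (1 : Module.End W.K (W.H Z))) y)) := by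
        rw [LinearMap.sub_apply, LinearMap.smul_apply, Module.End.one_apply, h.frob_pow,
          LinearMap.sub_apply, LinearMap.smul_apply, Module.End.one_apply, mul_sub,
          mul_smul_comm, smul_sub, smul_smul, h2]
      rw [pow_succ, Module.End.mul_apply, h3, map_smul, ih, smul_smul, ← pow_succ',
        pow_succ (frob Φ Z s - ((card Φ Z s : W.K) ^ j) • (1 : Module.End W.K (W.H Z))),
        Module.End.mul_apply]
  rw [key, hn, mul_zero, smul_zero]

lemma frob_genTate {x : W.H Z} (hx : x ∈ genTate Φ Z s j) : frob Φ Z s x ∈ genTate Φ Z s j := by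
  refine ⟨?_, W.map_mem _ hx.2⟩
  exact Module.End.mapsTo_maxGenEigenspace_of_comm (Commute.refl (frob Φ Z s)) _ hx.1

/-- **Duality for the semisimplicity.** -/
theorem semiAt_dual {l : ℕ} (hjl : j + l = Z.dim) (h : SemiAt Φ Z s j) : SemiAt Φ Z s l := by
  intro x hx
  rw [mem_tateAt]
  refine ⟨?_, hx.2⟩
  rw [← sub_eq_zero]
  have hmem : frob Φ Z s x - (card Φ Z s : W.K) ^ l • x ∈ genTate Φ Z s l :=
    Submodule.sub_mem _ (frob_genTate hx) (Submodule.smul_mem _ _ hx)
  refine genTate_nondeg Φ (show l + j = Z.dim by omega) hmem fun y hy => ?_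
  have h1 := ((mem_tateAt Φ).1 (h hy)).1
  have h2 := tr_iter Φ s (x * y)
  rw [map_mul, ← frob_apply, ← frob_apply, h1, mul_smul_comm, map_smul, smul_eq_mul, ← card_pow,
    ← hjl, pow_add, mul_assoc] at h2
  have h3 := mul_left_cancel₀ (pow_ne_zero _ (card_ne Φ s)) h2
  rw [sub_mul, map_sub, h3, smul_mul_assoc, map_smul, smul_eq_mul, sub_self]

/-- **The structure of the generalised Tate classes.** -/
theorem not_semi (h : Polarises Φ Z D s j) (hns : ¬ SemiAt Φ Z s j) :
    (∃ r, finrank W.K (genTate Φ Z s j) = finrank W.K (tateAt Φ Z s j) + 2 * (r + 1)) ∧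
      algRank Φ Z D s j + 1 ≤ finrank W.K (tateAt Φ Z s j) := by
  classical
  have hq0 : (card Φ Z s : W.K) ^ j ≠ 0 := pow_ne_zero _ (card_ne Φ s)
  set V := genTate Φ Z s j with hV
  let φ : V →ₗ[W.K] V →ₗ[W.K] W.K := (polForm W Z D j).domRestrict₁₂ V V
  have hφ : ∀ x y : V, φ x y = W.tr Z ((W.cl Z D) ^ (Z.dim - 2 * j) * x * y) := fun x y => rfl
  let g : Module.End W.K V := (frob Φ Z s).restrict (fun x hx => frob_genTate hx)
  have hg : ∀ x : V, ((g x : V) : W.H Z) = frob Φ Z s x := fun x => rfl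
  let u : Module.End W.K V := ((card Φ Z s : W.K) ^ j)⁻¹ • g
  have hu : ∀ x : V, ((u x : V) : W.H Z) = ((card Φ Z s : W.K) ^ j)⁻¹ • frob Φ Z s x :=
    fun x => rfl
  have hsymm : ∀ x y, φ x y = φ y x := by
    intro x y
    rw [hφ, hφ, mul_assoc, mul_assoc, W.even_comm x.2.2]
  have hnd : ∀ x, (∀ y, φ x y = 0) → x = 0 := by
    intro x hx
    apply Subtype.ext
    refine h.inj x.2.2 ?_
    have hle := h.le
    exact genTate_nondeg Φ (show (Z.dim - j) + j = Z.dim by omega) (h.gen x.2)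
      fun y hy => hx ⟨y, hy⟩
  have hiso : ∀ x y, φ (u x) (u y) = φ x y := by
    intro x y
    rw [hφ, hφ, hu, hu, mul_smul_comm, mul_smul_comm, smul_mul_assoc, map_smul, map_smul,
      smul_eq_mul, smul_eq_mul]
    have h1 := tr_iter Φ s ((W.cl Z D) ^ (Z.dim - 2 * j) * (x : W.H Z) * (y : W.H Z))
    rw [map_mul, ← frob_apply, ← frob_apply, h.frob_pow, smul_mul_assoc, map_smul, smul_eq_mul,
      ← card_pow] at h1
    have hle := h.le
    have h2 : (card Φ Z s : W.K) ^ Z.dim = (card Φ Z s : W.K) ^ (Z.dim - 2 * j) *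
        ((card Φ Z s : W.K) ^ j * (card Φ Z s : W.K) ^ j) := by
      rw [← pow_add, ← pow_add]
      congr 1
      omega
    rw [h2, mul_assoc ((card Φ Z s : W.K) ^ (Z.dim - 2 * j)) _ (W.tr Z _)] at h1
    have h3 := mul_left_cancel₀ (pow_ne_zero _ (card_ne Φ s)) h1
    rw [h3]
    field_simp
  have hnil : (u - 1) ^ finrank W.K (W.H Z) = 0 := by
    have h1 : u - 1 = ((card Φ Z s : W.K) ^ j)⁻¹ • (g - ((card Φ Z s : W.K) ^ j) • 1) := by
      refine LinearMap.ext fun x => ?_
      change ((card Φ Z s : W.K) ^ j)⁻¹ • g x - x =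
        ((card Φ Z s : W.K) ^ j)⁻¹ • (g x - ((card Φ Z s : W.K) ^ j) • x)
      rw [smul_sub, smul_smul, inv_mul_cancel₀ hq0, one_smul]
    have h2 : ∀ (m : ℕ) (x : V), ((((g - ((card Φ Z s : W.K) ^ j) • (1 : Module.End W.K V)) ^ m) x :
        V) : W.H Z) = ((frob Φ Z s - ((card Φ Z s : W.K) ^ j) •
          (1 : Module.End W.K (W.H Z))) ^ m) x := by
      intro m
      induction m with
      | zero => intro x; rfl
      | succ m ih =>
        intro x
        rw [pow_succ', Module.End.mul_apply, pow_succ', Module.End.mul_apply, ← ih]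
        rfl
    rw [h1, smul_pow]
    apply LinearMap.ext
    intro x
    rw [LinearMap.smul_apply, LinearMap.zero_apply]
    have h3 : ((g - ((card Φ Z s : W.K) ^ j) • (1 : Module.End W.K V)) ^ finrank W.K (W.H Z)) x
        = 0 := by
      apply Subtype.ext
      rw [h2]
      have h4 : (x : W.H Z) ∈ Module.End.maxGenEigenspace (frob Φ Z s)
        ((card Φ Z s : W.K) ^ j) := x.2.1
      rw [Module.End.maxGenEigenspace_eq_genEigenspace_finrank, Module.End.mem_genEigenspace_nat,
        LinearMap.mem_ker] at h4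
      exact h4
    rw [h3, smul_zero]
  have halg : algAt Φ Z s j ≤ V := fun x hx => tateAt_le Φ hx.2
  have hker : LinearMap.ker (u - 1) = (tateAt Φ Z s j).submoduleOf V := by
    ext x
    rw [LinearMap.mem_ker, LinearMap.sub_apply, Module.End.one_apply, sub_eq_zero]
    change u x = x ↔ (x : W.H Z) ∈ tateAt Φ Z s j
    rw [mem_tateAt, Subtype.ext_iff, hu]
    constructor
    · intro h1
      refine ⟨?_, x.2.2⟩
      conv_rhs => rw [← h1]
      rw [smul_smul, mul_inv_cancel₀ hq0, one_smul]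
    · intro h1
      rw [h1.1, smul_smul, inv_mul_cancel₀ hq0, one_smul]
  have hne : u ≠ 1 := by
    intro h1
    apply hns
    intro x hx
    have h2 : (⟨x, hx⟩ : V) ∈ LinearMap.ker (u - 1) := by
      rw [LinearMap.mem_ker, h1, LinearMap.sub_apply, sub_self]
    rw [hker] at h2
    exact h2
  obtain ⟨⟨r, hr⟩, h2⟩ := unipotent_isometry φ hsymm hnd u hiso hnil
    ((algAt Φ Z s j).submoduleOf V) (fun a ha => by
      have h1 : a ∈ LinearMap.ker (u - 1) := by
        rw [hker]
        exact (show (a : W.H Z) ∈ algAt Φ Z s j from ha).2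
      rw [LinearMap.mem_ker, LinearMap.sub_apply, Module.End.one_apply, sub_eq_zero] at h1
      exact h1) hne
  have h3 : finrank W.K (LinearMap.ker (u - 1)) = finrank W.K (tateAt Φ Z s j) := by
    rw [hker]
    exact (Submodule.submoduleOfEquivOfLe (tateAt_le Φ)).finrank_eq
  rw [h3] at hr h2
  rw [rank_formOn (polForm W Z D j) halg] at h2
  exact ⟨⟨r, hr⟩, h2⟩

/-- **Semisimplicity for defect at most two.** -/
theorem semi_of_defect (h : Polarises Φ Z D s j)
    (hd : finrank W.K (genTate Φ Z s j) ≤ algRank Φ Z D s j + 2) :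
    SemiAt Φ Z s j ∧ SemiAt Φ Z s (Z.dim - j) := by
  have h1 : SemiAt Φ Z s j := by
    by_contra hns
    obtain ⟨⟨r, hr⟩, h2⟩ := not_semi h hns
    omega
  have hle := h.le
  exact ⟨h1, semiAt_dual (show j + (Z.dim - j) = Z.dim by omega) h1⟩

/-- **The parity of the multiplicity of the eigenvalue.** -/
theorem parity (h : Polarises Φ Z D s j) :
    ∃ r, finrank W.K (genTate Φ Z s j) = finrank W.K (tateAt Φ Z s j) + 2 * r := by
  by_cases hs : SemiAt Φ Z s j
  · exact ⟨0, by rw [le_antisymm hs (tateAt_le Φ)]; ring⟩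
  · obtain ⟨⟨r, hr⟩, -⟩ := not_semi h hs
    exact ⟨r + 1, hr⟩

/-- Semisimplicity over a finite extension implies semisimplicity. -/
theorem semiAt_of_mul {t : ℕ} (ht : 0 < t) (h : SemiAt Φ Z (s * t) j) : SemiAt Φ Z s j := by
  intro x hx
  rw [mem_tateAt]
  refine ⟨?_, hx.2⟩
  have h1 : ∀ y ∈ genTate Φ Z s j, (frob Φ Z s ^ t) y = ((card Φ Z s : W.K) ^ j) ^ t • y := by
    intro y hy
    have h2 := ((mem_tateAt Φ).1 (h (genTate_mono Φ s t j hy))).1
    rw [frob_mul_eq, card_mul_eq, Nat.cast_pow, pow_right_comm] at h2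
    exact h2
  obtain ⟨⟨n, hn⟩, -⟩ := (mem_genTate Φ).1 hx
  set μ := (card Φ Z s : W.K) ^ j with hμ
  have hμ0 : μ ≠ 0 := pow_ne_zero _ (card_ne Φ s)
  -- vectors killed by the square are killed
  have hsq : ∀ y ∈ genTate Φ Z s j, (frob Φ Z s - μ • (1 : Module.End W.K (W.H Z)))
      ((frob Φ Z s - μ • (1 : Module.End W.K (W.H Z))) y) = 0 →
      (frob Φ Z s - μ • (1 : Module.End W.K (W.H Z))) y = 0 := by
    intro y hy h2
    set z := (frob Φ Z s - μ • (1 : Module.End W.K (W.H Z))) y with hz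
    have hz1 : frob Φ Z s y = μ • y + z := by
      rw [hz, LinearMap.sub_apply, LinearMap.smul_apply, Module.End.one_apply]
      abel
    have hz2 : frob Φ Z s z = μ • z := by
      rw [LinearMap.sub_apply, LinearMap.smul_apply, Module.End.one_apply, sub_eq_zero] at h2
      exact h2
    have h3 : ∀ m : ℕ, (frob Φ Z s ^ m) y = μ ^ m • y + ((m : W.K) * μ ^ (m - 1)) • z := by
      intro m
      induction m with
      | zero => simp
      | succ m ih =>
        rw [pow_succ', Module.End.mul_apply, ih, map_add, map_smul, map_smul, hz1, hz2, smul_add,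
          smul_smul, smul_smul, ← pow_succ, add_assoc, ← add_smul]
        congr 2
        rcases m with _ | m
        · simp
        · rw [Nat.add_sub_cancel, Nat.add_sub_cancel, pow_succ]
          push_cast
          ring
    have h4 := h1 y hy
    rw [h3 t, add_eq_left] at h4
    refine (smul_eq_zero.1 h4).resolve_left ?_
    exact mul_ne_zero (Nat.cast_ne_zero.2 ht.ne') (pow_ne_zero _ hμ0)
  have h5 : (frob Φ Z s - μ • (1 : Module.End W.K (W.H Z))) x = 0 := by
    refine ker_of_sq' (S := genTate Φ Z s j) (fun y hy => ?_) hsq hx hn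
    rw [LinearMap.sub_apply, LinearMap.smul_apply, Module.End.one_apply]
    exact Submodule.sub_mem _ (frob_genTate hy) (Submodule.smul_mem _ _ hy)
  rw [LinearMap.sub_apply, LinearMap.smul_apply, Module.End.one_apply, sub_eq_zero] at h5
  exact h5

/-- The rank of the algebraic classes in the middle dimension, over large fields, is the rank of the
group of cycles modulo numerical equivalence. -/
theorem algRank_eq (hj : 2 * j = Z.dim) (D : Z.Cycles)
    (hs : ∀ c ∈ spanCycles W Z j, frob Φ Z s c = ((card Φ Z s : W.K) ^ j) • c) :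
    algRank Φ Z D s j = numRank ops Z j := by
  have h1 : algAt Φ Z s j = spanCycles W Z j := by
    apply le_antisymm inf_le_left
    intro c hc
    exact ⟨hc, (mem_tateAt Φ).2 ⟨hs c hc, span_gr hc⟩⟩
  have h2 : formOn (polForm W Z D j) (spanCycles W Z j) = pair W Z j j := by
    refine LinearMap.ext fun a => LinearMap.ext fun b => ?_
    change W.tr Z ((W.cl Z D) ^ (Z.dim - 2 * j) * (a : W.H Z) * (b : W.H Z)) =
      W.tr Z ((a : W.H Z) * (b : W.H Z))
    rw [show Z.dim - 2 * j = 0 by omega, pow_zero, one_mul]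
  rw [numRank_eq (W := W) (by omega), show Z.dim - j = j by omega, algRank, h1, rankOn, h2, kRank]

/-- **Semisimplicity if the multiplicity is at most the rank plus two.** -/
theorem semi_middle (hj : 2 * j = Z.dim)
    (h : ∀ s, 0 < s → finrank W.K (genTate Φ Z s j) ≤ numRank ops Z j + 2) :
    ∀ s, 0 < s → SemiAt Φ Z s j := by
  intro s hs
  obtain ⟨t₁, ht₁, h1⟩ := exists_span_eig Φ Z j
  refine semiAt_of_mul ht₁ ?_
  have h2 := h (s * t₁) (Nat.mul_pos hs ht₁)
  have h5 := algRank_eq hj (W := W) Z.V.fundCycle (fun c hc => span_eig_mul' Φ (h1 c hc) s)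
  refine (semi_of_defect (D := Z.V.fundCycle) (Or.inl hj) ?_).1
  rw [h5]
  exact h2

end Pool.Agent.L7h89.SS
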