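import Mathlib

/-!
# Semisimple eigenvalues of tensor products of operators

For operators `F` on `V` and `G` on `W` (finite-dimensional complex vector spaces) the eigenvalue
`ν ≠ 0` of `F ⊗ G` is semisimple if and only if all pairs of eigenvalues with product `ν` are
semisimple. The Künneth decomposition of the cohomology of a product.
-/

set_option autoImplicit false

namespace Pool.Agent.L7h89.SS

open Module TensorProduct

/-- The eigenvalue `μ` of `T` is semisimple: `(T - μ) ^ 2 x = 0` implies `(T - μ) x = 0`. (This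
includes the case that `μ` is not an eigenvalue.) -/
def SemisimpleAt {M : Type*} [AddCommGroup M] [Module ℂ M] (T : M →ₗ[ℂ] M) (μ : ℂ) : Prop :=
  ∀ x : M, T (T x - μ • x) = μ • (T x - μ • x) → T x = μ • x

section Lin

variable {K : Type*} [Field K] {V V' V'' : Type*} [AddCommGroup V] [Module K V]
  [AddCommGroup V'] [Module K V'] [AddCommGroup V''] [Module K V'']

/-- A generalised eigenvector is a linear combination of the generalised eigenvectors in a set of
generalised eigenvectors which belong to the same eigenvalue. -/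
lemma mem_span_gen {T : Module.End K V} {M : Set V}
    (hM : ∀ v ∈ M, ∃ ν : K, v ∈ T.maxGenEigenspace ν) {z : V} (hz : z ∈ Submodule.span K M)
    {μ : K} (hzμ : z ∈ T.maxGenEigenspace μ) :
    z ∈ Submodule.span K {v | v ∈ M ∧ v ∈ T.maxGenEigenspace μ} := by
  have key : ∃ z₁ ∈ Submodule.span K {v | v ∈ M ∧ v ∈ T.maxGenEigenspace μ},
      ∃ z₂ ∈ ⨆ ν ∈ {ν : K | ν ≠ μ}, T.maxGenEigenspace ν, z = z₁ + z₂ := by
    clear hzμ
    induction hz using Submodule.span_induction with
    | mem v hv =>
      obtain ⟨ν, hν⟩ := hM v hv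
      by_cases h : ν = μ
      · subst h
        exact ⟨v, Submodule.subset_span ⟨hv, hν⟩, 0, Submodule.zero_mem _, (add_zero v).symm⟩
      · refine ⟨0, Submodule.zero_mem _, v, ?_, (zero_add v).symm⟩
        exact (le_iSup₂_of_le (f := fun (ν : K) (_ : ν ∈ {ν : K | ν ≠ μ}) => T.maxGenEigenspace ν)
          ν h le_rfl) hν
    | zero => exact ⟨0, Submodule.zero_mem _, 0, Submodule.zero_mem _, (add_zero 0).symm⟩
    | add x y _ _ hx hy =>
      obtain ⟨a, ha, b, hb, rfl⟩ := hx
      obtain ⟨a', ha', b', hb', rfl⟩ := hy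
      exact ⟨a + a', Submodule.add_mem _ ha ha', b + b', Submodule.add_mem _ hb hb',
        by abel⟩
    | smul c x _ hx =>
      obtain ⟨a, ha, b, hb, rfl⟩ := hx
      exact ⟨c • a, Submodule.smul_mem _ _ ha, c • b, Submodule.smul_mem _ _ hb, smul_add _ _ _⟩
  obtain ⟨z₁, h1, z₂, h2, rfl⟩ := key
  have h3 : z₁ ∈ T.maxGenEigenspace μ := by
    have : Submodule.span K {v | v ∈ M ∧ v ∈ T.maxGenEigenspace μ} ≤ T.maxGenEigenspace μ := by
      rw [Submodule.span_le]
      intro v hv
      exact hv.2
    exact this h1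
  have h4 : z₂ ∈ T.maxGenEigenspace μ := by
    have := Submodule.sub_mem _ hzμ h3
    rwa [add_sub_cancel_left] at this
  have h5 := (Module.End.independent_maxGenEigenspace T) μ
  rw [Submodule.disjoint_def] at h5
  have h6 : z₂ = 0 := h5 z₂ h4 h2
  rw [h6, add_zero]
  exact h1

lemma eq_of_mem_gen {T : Module.End K V} {v : V} {μ ν : K} (h1 : v ∈ T.maxGenEigenspace μ)
    (h2 : v ∈ T.maxGenEigenspace ν) (hv : v ≠ 0) : μ = ν := by
  by_contra h
  have h5 := (Module.End.independent_maxGenEigenspace T).pairwiseDisjoint h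
  exact hv (Submodule.disjoint_def.1 h5 v h1 h2)

lemma eig_mem_gen {T : Module.End K V} {v : V} {μ : K} (h : T v = μ • v) :
    v ∈ T.maxGenEigenspace μ := by
  rw [Module.End.mem_maxGenEigenspace]
  refine ⟨1, ?_⟩
  rw [pow_one, LinearMap.sub_apply, h, LinearMap.smul_apply, Module.End.one_apply, sub_self]

/-- Over an algebraically closed field every vector is a sum of generalised eigenvectors. -/
lemma span_gen_top [IsAlgClosed K] [Module.Finite K V] (T : Module.End K V) (x : V) :
    x ∈ Submodule.span K {v | ∃ ν : K, v ∈ T.maxGenEigenspace ν} := by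
  have h : x ∈ ⨆ ν, T.maxGenEigenspace ν := by
    rw [Module.End.iSup_maxGenEigenspace_eq_top]
    exact Submodule.mem_top
  induction h using Submodule.iSup_induction' with
  | mem ν x hx => exact Submodule.subset_span ⟨ν, hx⟩
  | zero => exact Submodule.zero_mem _
  | add x y _ _ hx hy => exact Submodule.add_mem _ hx hy

/-- A nonzero generalised eigenvector belongs to an eigenvalue. -/
lemma hasEigenvalue_of_gen {T : Module.End K V} {v : V} {ν : K} (h : v ∈ T.maxGenEigenspace ν)
    (hv : v ≠ 0) : T.HasEigenvalue ν := by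
  rw [Module.End.mem_maxGenEigenspace] at h
  obtain ⟨n, hn⟩ := h
  induction n with
  | zero =>
    rw [pow_zero, Module.End.one_apply] at hn
    exact absurd hn hv
  | succ n ih =>
    by_cases h0 : ((T - ν • (1 : Module.End K V)) ^ n) v = 0
    · exact ih h0
    · refine Module.End.hasEigenvalue_of_hasEigenvector
        (x := ((T - ν • (1 : Module.End K V)) ^ n) v) ⟨?_, h0⟩
      rw [Module.End.mem_eigenspace_iff]
      rw [pow_succ', Module.End.mul_apply, LinearMap.sub_apply, LinearMap.smul_apply,
        Module.End.one_apply, sub_eq_zero] at hn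
      exact hn

/-- Products of generalised eigenvectors. -/
lemma gen_mul {T : Module.End K V} {T' : Module.End K V'} {T'' : Module.End K V''}
    (β : V →ₗ[K] V' →ₗ[K] V'') (h : ∀ x y, T'' (β x y) = β (T x) (T' y)) {ν ν' : K} {x : V}
    {y : V'} (hx : x ∈ T.maxGenEigenspace ν) (hy : y ∈ T'.maxGenEigenspace ν') :
    β x y ∈ T''.maxGenEigenspace (ν * ν') := by
  have key : ∀ N n n' : ℕ, n + n' ≤ N → ∀ (x : V) (y : V'),
      ((T - ν • (1 : Module.End K V)) ^ n) x = 0 →
      ((T' - ν' • (1 : Module.End K V')) ^ n') y = 0 →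
      ((T'' - (ν * ν') • (1 : Module.End K V'')) ^ N) (β x y) = 0 := by
    intro N
    induction N with
    | zero =>
      intro n n' hn x y hx hy
      have : n = 0 := by omega
      subst this
      rw [pow_zero, Module.End.one_apply] at hx
      rw [hx, map_zero, LinearMap.zero_apply, map_zero]
    | succ N ih =>
      intro n n' hn x y hx hy
      cases n with
      | zero =>
        rw [pow_zero, Module.End.one_apply] at hx
        rw [hx, map_zero, LinearMap.zero_apply, map_zero]
      | succ n =>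
        cases n' with
        | zero =>
          rw [pow_zero, Module.End.one_apply] at hy
          rw [hy, map_zero, map_zero]
        | succ n' =>
          have e1 : (T'' - (ν * ν') • (1 : Module.End K V'')) (β x y) =
              β ((T - ν • (1 : Module.End K V)) x) (T' y) +
                ν • β x ((T' - ν' • (1 : Module.End K V')) y) := by
            rw [LinearMap.sub_apply, h, LinearMap.smul_apply, Module.End.one_apply,
              LinearMap.sub_apply, LinearMap.sub_apply, LinearMap.smul_apply,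
              LinearMap.smul_apply, Module.End.one_apply, Module.End.one_apply, map_sub,
              LinearMap.sub_apply, map_smul, LinearMap.smul_apply, map_sub, map_smul, smul_sub,
              smul_smul]
            abel
          rw [pow_succ, Module.End.mul_apply, e1, map_add, map_smul]
          have hx' : ((T - ν • (1 : Module.End K V)) ^ n)
              ((T - ν • (1 : Module.End K V)) x) = 0 := by
            rw [← Module.End.mul_apply, ← pow_succ]
            exact hx
          have hy' : ((T' - ν' • (1 : Module.End K V')) ^ n')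
              ((T' - ν' • (1 : Module.End K V')) y) = 0 := by
            rw [← Module.End.mul_apply, ← pow_succ]
            exact hy
          have hy2 : ((T' - ν' • (1 : Module.End K V')) ^ (n' + 1)) (T' y) = 0 := by
            have hc : Commute T' ((T' - ν' • (1 : Module.End K V')) ^ (n' + 1)) :=
              (Commute.sub_right (Commute.refl _) ((Commute.one_right _).smul_right _)).pow_right _
            rw [← Module.End.mul_apply, ← hc.eq, Module.End.mul_apply, hy, map_zero]
          rw [ih n (n' + 1) (by omega) _ _ hx' hy2, ih (n + 1) n' (by omega) _ _ hx hy',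
            smul_zero, add_zero]
  rw [Module.End.mem_maxGenEigenspace] at hx hy ⊢
  obtain ⟨n, hn⟩ := hx
  obtain ⟨n', hn'⟩ := hy
  exact ⟨n + n', key _ n n' le_rfl x y hn hn'⟩

end Lin

section Semi

variable {V : Type*} [AddCommGroup V] [Module ℂ V] {W : Type*} [AddCommGroup W] [Module ℂ W]

/-- If the eigenvalue is semisimple, the generalised eigenvectors are eigenvectors. -/
theorem SemisimpleAt.eig {T : V →ₗ[ℂ] V} {μ : ℂ} (h : SemisimpleAt T μ) {x : V}
    (hx : x ∈ Module.End.maxGenEigenspace T μ) : T x = μ • x := by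
  rw [Module.End.mem_maxGenEigenspace] at hx
  obtain ⟨n, hn⟩ := hx
  induction n generalizing x with
  | zero =>
    rw [pow_zero, Module.End.one_apply] at hn
    rw [hn, map_zero, smul_zero]
  | succ n ih =>
    rw [pow_succ, Module.End.mul_apply] at hn
    have h1 := ih hn
    have h2 : (T - μ • (1 : Module.End ℂ V)) x = T x - μ • x := by
      rw [LinearMap.sub_apply, LinearMap.smul_apply, Module.End.one_apply]
    rw [h2] at h1
    exact h x h1

theorem semisimpleAt_of_eig {T : V →ₗ[ℂ] V} {μ : ℂ}
    (h : ∀ x ∈ Module.End.maxGenEigenspace T μ, T x = μ • x) : SemisimpleAt T μ := by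
  intro x hx
  refine h x ?_
  rw [Module.End.mem_maxGenEigenspace]
  refine ⟨2, ?_⟩
  have h2 : ∀ y, (T - μ • (1 : Module.End ℂ V)) y = T y - μ • y := fun y => by
    rw [LinearMap.sub_apply, LinearMap.smul_apply, Module.End.one_apply]
  rw [pow_two, Module.End.mul_apply, h2, h2, hx, sub_self]

/-- If the space is spanned by eigenvectors with eigenvalues in `S`, all eigenvalues belong to `S`
and are semisimple. -/
theorem of_span_eig {T : V →ₗ[ℂ] V} {S : Set ℂ}
    (h : Submodule.span ℂ {v : V | ∃ α ∈ S, T v = α • v} = ⊤) :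
    (∀ μ, Module.End.HasEigenvalue T μ → μ ∈ S) ∧ ∀ μ, SemisimpleAt T μ := by
  have hgen : ∀ v ∈ {v : V | ∃ α ∈ S, T v = α • v}, ∃ ν : ℂ, v ∈ Module.End.maxGenEigenspace T ν := by
    rintro v ⟨α, -, hv⟩
    exact ⟨α, eig_mem_gen hv⟩
  constructor
  · intro μ hμ
    obtain ⟨v, hv, hv0⟩ := hμ.exists_hasEigenvector
    have h1 := mem_span_gen hgen (by rw [h]; exact Submodule.mem_top)
      (eig_mem_gen (Module.End.mem_eigenspace_iff.1 hv))
    by_contra hμS
    apply hv0
    have h2 : Submodule.span ℂ {v | v ∈ {v : V | ∃ α ∈ S, T v = α • v} ∧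
        v ∈ Module.End.maxGenEigenspace T μ} = ⊥ := by
      rw [Submodule.span_eq_bot]
      rintro w ⟨⟨α, hα, hw⟩, hw2⟩
      by_contra hw0
      have h3 := eq_of_mem_gen (eig_mem_gen hw) hw2 hw0
      exact hμS (h3 ▸ hα)
    rw [h2, Submodule.mem_bot] at h1
    exact h1
  · intro μ
    refine semisimpleAt_of_eig fun x hx => ?_
    have h1 := mem_span_gen hgen (by rw [h]; exact Submodule.mem_top) hx
    clear hx
    induction h1 using Submodule.span_induction with
    | mem w hw =>
      obtain ⟨⟨α, -, hw⟩, hw2⟩ := hw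
      by_cases hw0 : w = 0
      · rw [hw0, map_zero, smul_zero]
      · rw [← eq_of_mem_gen (eig_mem_gen hw) hw2 hw0]
        exact hw
    | zero => rw [map_zero, smul_zero]
    | add x y _ _ hx hy => rw [map_add, hx, hy, smul_add]
    | smul c x _ hx => rw [map_smul, hx, smul_comm]

variable [FiniteDimensional ℂ V] [FiniteDimensional ℂ W]

/-- **The generalised eigenspaces of a tensor product.** -/
theorem gen_tensor (F : V →ₗ[ℂ] V) (G : W →ₗ[ℂ] W) (ν : ℂ) (t : V ⊗[ℂ] W) :
    t ∈ Module.End.maxGenEigenspace (TensorProduct.map F G) ν ↔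
      t ∈ Submodule.span ℂ {w | ∃ (μ ρ : ℂ) (x : V) (y : W), μ * ρ = ν ∧
        x ∈ Module.End.maxGenEigenspace F μ ∧ y ∈ Module.End.maxGenEigenspace G ρ ∧
        w = x ⊗ₜ y} := by
  have hgen : ∀ (y : V) (v : W) (μ ν : ℂ), y ∈ Module.End.maxGenEigenspace F μ →
      v ∈ Module.End.maxGenEigenspace G ν →
      y ⊗ₜ[ℂ] v ∈ Module.End.maxGenEigenspace (TensorProduct.map F G) (μ * ν) := by
    intro y v μ ν hy hv
    exact gen_mul (TensorProduct.mk ℂ V W) (T'' := TensorProduct.map F G)
      (fun x y => TensorProduct.map_tmul F G x y) hy hv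
  constructor
  · intro ht
    have h1 : t ∈ Submodule.span ℂ {w | ∃ (y : V) (v : W),
        (∃ ν, y ∈ Module.End.maxGenEigenspace F ν) ∧
        (∃ ν, v ∈ Module.End.maxGenEigenspace G ν) ∧ w = y ⊗ₜ[ℂ] v} := by
      clear ht
      induction t using TensorProduct.induction_on with
      | zero => exact Submodule.zero_mem _
      | add x y hx hy => exact Submodule.add_mem _ hx hy
      | tmul y v =>
        have hy := span_gen_top F y
        induction hy using Submodule.span_induction with
        | mem y hy =>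
          have hv := span_gen_top G v
          induction hv using Submodule.span_induction with
          | mem v hv => exact Submodule.subset_span ⟨y, v, hy, hv, rfl⟩
          | zero => rw [TensorProduct.tmul_zero]; exact Submodule.zero_mem _
          | add v w _ _ hv hw => rw [TensorProduct.tmul_add]; exact Submodule.add_mem _ hv hw
          | smul r v _ hv => rw [TensorProduct.tmul_smul]; exact Submodule.smul_mem _ _ hv
        | zero => rw [TensorProduct.zero_tmul]; exact Submodule.zero_mem _
        | add v w _ _ hv hw => rw [TensorProduct.add_tmul]; exact Submodule.add_mem _ hv hw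
        | smul r v _ hv => rw [← TensorProduct.smul_tmul']; exact Submodule.smul_mem _ _ hv
    have h2 := mem_span_gen (T := TensorProduct.map F G)
      (fun w hw => by
        obtain ⟨y, v, ⟨μ, hμ⟩, ⟨ν, hν⟩, rfl⟩ := hw
        exact ⟨_, hgen y v μ ν hμ hν⟩) h1 ht
    refine Submodule.span_le.2 ?_ h2
    rintro w ⟨⟨y, v, ⟨μ, hμ⟩, ⟨ρ, hρ⟩, rfl⟩, hw⟩
    by_cases h0 : y ⊗ₜ[ℂ] v = 0
    · rw [h0]
      exact Submodule.zero_mem _
    · exact Submodule.subset_span ⟨μ, ρ, y, v, eq_of_mem_gen (hgen y v μ ρ hμ hρ) hw h0, hμ, hρ, rfl⟩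
  · intro ht
    refine Submodule.span_le.2 ?_ ht
    rintro w ⟨μ, ρ, x, y, rfl, hx, hy, rfl⟩
    exact hgen x y μ ρ hx hy

/-- A semisimple eigenvalue of a product, times an eigenvalue of the second factor. -/
theorem semi_left {F : V →ₗ[ℂ] V} {G : W →ₗ[ℂ] W} {μ ρ : ℂ} (hρ0 : ρ ≠ 0)
    (h : SemisimpleAt (M := V ⊗[ℂ] W) (TensorProduct.map F G) (μ * ρ))
    (hρ : Module.End.HasEigenvalue G ρ) : SemisimpleAt F μ := by
  intro x hx
  obtain ⟨y, hy, hy0⟩ := hρ.exists_hasEigenvector
  have hy1 : G y = ρ • y := Module.End.mem_eigenspace_iff.1 hy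
  have key : ∀ z : V, TensorProduct.map F G (z ⊗ₜ[ℂ] y) - (μ * ρ) • (z ⊗ₜ[ℂ] y) =
      ρ • ((F z - μ • z) ⊗ₜ[ℂ] y) := by
    intro z
    rw [TensorProduct.map_tmul, hy1, TensorProduct.tmul_smul, TensorProduct.sub_tmul, smul_sub,
      ← TensorProduct.smul_tmul', smul_smul, mul_comm ρ μ]
  have h1 := h (x ⊗ₜ y) (by
    rw [key, map_smul, smul_comm (μ * ρ) ρ, ← sub_eq_zero, ← smul_sub, key, hx, sub_self,
      TensorProduct.zero_tmul, smul_zero, smul_zero])
  rw [← sub_eq_zero, key] at h1
  have h2 : (F x - μ • x) ⊗ₜ[ℂ] y = 0 := (smul_eq_zero.1 h1).resolve_left hρ0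
  rw [← sub_eq_zero]
  by_contra hne
  apply hy0
  rw [← Module.forall_dual_apply_eq_zero_iff ℂ y]
  intro φ
  have h3 := congrArg (fun t => TensorProduct.rid ℂ V (LinearMap.lTensor V φ t)) h2
  simp only [LinearMap.lTensor_tmul, TensorProduct.rid_tmul, map_zero] at h3
  exact (smul_eq_zero.1 h3).resolve_right hne

/-- A semisimple eigenvalue of a product, times an eigenvalue of the first factor. -/
theorem semi_right {F : V →ₗ[ℂ] V} {G : W →ₗ[ℂ] W} {μ ρ : ℂ} (hμ0 : μ ≠ 0)
    (h : SemisimpleAt (M := V ⊗[ℂ] W) (TensorProduct.map F G) (μ * ρ))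
    (hμ : Module.End.HasEigenvalue F μ) : SemisimpleAt G ρ := by
  intro x hx
  obtain ⟨y, hy, hy0⟩ := hμ.exists_hasEigenvector
  have hy1 : F y = μ • y := Module.End.mem_eigenspace_iff.1 hy
  have key : ∀ z : W, TensorProduct.map F G (y ⊗ₜ[ℂ] z) - (μ * ρ) • (y ⊗ₜ[ℂ] z) =
      μ • (y ⊗ₜ[ℂ] (G z - ρ • z)) := by
    intro z
    rw [TensorProduct.map_tmul, hy1, ← TensorProduct.smul_tmul', TensorProduct.tmul_sub, smul_sub,
      TensorProduct.tmul_smul, smul_smul]
  have h1 := h (y ⊗ₜ x) (by
    rw [key, map_smul, smul_comm (μ * ρ) μ, ← sub_eq_zero, ← smul_sub, key, hx, sub_self,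
      TensorProduct.tmul_zero, smul_zero, smul_zero])
  rw [← sub_eq_zero, key] at h1
  have h2 : y ⊗ₜ[ℂ] (G x - ρ • x) = 0 := (smul_eq_zero.1 h1).resolve_left hμ0
  rw [← sub_eq_zero]
  by_contra hne
  apply hy0
  rw [← Module.forall_dual_apply_eq_zero_iff ℂ y]
  intro φ
  have h3 := congrArg (fun t => TensorProduct.lid ℂ W (LinearMap.rTensor W φ t)) h2
  simp only [LinearMap.rTensor_tmul, TensorProduct.lid_tmul, map_zero] at h3
  exact (smul_eq_zero.1 h3).resolve_right hne

/-- **Semisimplicity of an eigenvalue of a tensor product.** -/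
theorem semi_tensor (F : V →ₗ[ℂ] V) (G : W →ₗ[ℂ] W) {ν : ℂ} (hν : ν ≠ 0) :
    SemisimpleAt (M := V ⊗[ℂ] W) (TensorProduct.map F G) ν ↔
      ∀ μ ρ : ℂ, Module.End.HasEigenvalue F μ → Module.End.HasEigenvalue G ρ → μ * ρ = ν →
        SemisimpleAt F μ ∧ SemisimpleAt G ρ := by
  constructor
  · intro h μ ρ hμ hρ he
    rw [← he] at h hν
    exact ⟨semi_left (right_ne_zero_of_mul hν) h hρ, semi_right (left_ne_zero_of_mul hν) h hμ⟩
  · intro h
    refine semisimpleAt_of_eig fun t ht => ?_
    rw [gen_tensor] at ht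
    induction ht using Submodule.span_induction with
    | mem w hw =>
      obtain ⟨μ, ρ, x, y, he, hx, hy, rfl⟩ := hw
      by_cases hx0 : x = 0
      · rw [hx0, TensorProduct.zero_tmul, map_zero, smul_zero]
      by_cases hy0 : y = 0
      · rw [hy0, TensorProduct.tmul_zero, map_zero, smul_zero]
      obtain ⟨h1, h2⟩ := h μ ρ (hasEigenvalue_of_gen hx hx0) (hasEigenvalue_of_gen hy hy0) he
      rw [TensorProduct.map_tmul, h1.eig hx, h2.eig hy, ← TensorProduct.smul_tmul',
        TensorProduct.tmul_smul, smul_smul, he]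
    | zero => rw [map_zero, smul_zero]
    | add x y _ _ hx hy => rw [map_add, hx, hy, smul_add]
    | smul c x _ hx => rw [map_smul, hx, smul_comm]

end Semi

end Pool.Agent.L7h89.SS
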