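import Mathlib
import Pool.Agent.L7h89.SS.Lin

/-!
# The formula of Künneth and the semisimplicity of the Tate eigenvalues
-/

set_option autoImplicit false

namespace Pool.Agent.L7h89.SS

open Module TensorProduct

/-- The cohomology with compact supports of degree `m` of the product `X × U`, by the formula of
Künneth; `W n` and `H m` are the cohomology groups with compact supports of `X` and `U`. -/
def Kunneth (W H : ℕ → Type) [∀ n, AddCommGroup (W n)] [∀ n, Module ℂ (W n)]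
    [∀ m, AddCommGroup (H m)] [∀ m, Module ℂ (H m)] (m : ℕ) : Type :=
  ∀ n : Fin (m + 1), W n ⊗[ℂ] H (m - n)

variable {W H : ℕ → Type} [∀ n, AddCommGroup (W n)] [∀ n, Module ℂ (W n)]
  [∀ m, AddCommGroup (H m)] [∀ m, Module ℂ (H m)]

noncomputable instance (m : ℕ) : AddCommGroup (Kunneth W H m) :=
  inferInstanceAs (AddCommGroup (∀ n : Fin (m + 1), W n ⊗[ℂ] H (m - n)))

noncomputable instance (m : ℕ) : Module ℂ (Kunneth W H m) :=
  inferInstanceAs (Module ℂ (∀ n : Fin (m + 1), W n ⊗[ℂ] H (m - n)))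

/-- The component of index `n`, in `W n ⊗ H (m - n)`. -/
noncomputable def comp (m : ℕ) (n : Fin (m + 1)) : Kunneth W H m →ₗ[ℂ] W n ⊗[ℂ] H (m - n) :=
  LinearMap.proj (R := ℂ) (φ := fun n : Fin (m + 1) => W n ⊗[ℂ] H (m - n)) n

/-- The Frobenius endomorphism of the cohomology of degree `m` of `X × U`. -/
noncomputable def frob (F : ∀ n, W n →ₗ[ℂ] W n) (G : ∀ m, H m →ₗ[ℂ] H m) (m : ℕ) :
    Kunneth W H m →ₗ[ℂ] Kunneth W H m :=
  LinearMap.pi (R := ℂ) (φ := fun n : Fin (m + 1) => W n ⊗[ℂ] H (m - n)) fun n =>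
    TensorProduct.map (F n) (G (m - n)) ∘ₗ comp m n

theorem comp_frob (F : ∀ n, W n →ₗ[ℂ] W n) (G : ∀ m, H m →ₗ[ℂ] H m) (m : ℕ) (t : Kunneth W H m)
    (n : Fin (m + 1)) : comp m n (frob F G m t) =
      TensorProduct.map (F n) (G (m - n)) (comp m n t) := rfl

theorem ext_comp {m : ℕ} {t u : Kunneth W H m} (h : ∀ n, comp m n t = comp m n u) : t = u :=
  funext h

theorem exists_comp (m : ℕ) (n : Fin (m + 1)) (x : W n ⊗[ℂ] H (m - n)) :
    ∃ t : Kunneth W H m, comp m n t = x ∧ ∀ j, j ≠ n → comp m j t = 0 := by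
  classical
  exact ⟨fun j => if h : j = n then h ▸ x else 0, dif_pos rfl, fun j hj => dif_neg hj⟩

theorem comp_pow (F : ∀ n, W n →ₗ[ℂ] W n) (G : ∀ m, H m →ₗ[ℂ] H m) (m : ℕ) (μ : ℂ) (k : ℕ)
    (t : Kunneth W H m) (n : Fin (m + 1)) :
    comp m n (((frob F G m - μ • (1 : Module.End ℂ (Kunneth W H m))) ^ k) t) =
      ((TensorProduct.map (F n) (G (m - n)) - μ • (1 : Module.End ℂ (W n ⊗[ℂ] H (m - n)))) ^ k)
        (comp m n t) := by
  induction k generalizing t with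
  | zero => rfl
  | succ k ih =>
    rw [pow_succ, Module.End.mul_apply, ih, pow_succ, Module.End.mul_apply]
    rfl

/-- The generalised eigenspaces of a product. -/
theorem gen_frob (F : ∀ n, W n →ₗ[ℂ] W n) (G : ∀ m, H m →ₗ[ℂ] H m) (m : ℕ) (μ : ℂ)
    (t : Kunneth W H m) : t ∈ Module.End.maxGenEigenspace (frob F G m) μ ↔
      ∀ n : Fin (m + 1), comp m n t ∈
        Module.End.maxGenEigenspace (TensorProduct.map (F n) (G (m - n))) μ := by
  constructor
  · intro h n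
    rw [Module.End.mem_maxGenEigenspace] at h ⊢
    obtain ⟨k, hk⟩ := h
    refine ⟨k, ?_⟩
    rw [← comp_pow, hk, map_zero]
  · intro h
    simp only [Module.End.mem_maxGenEigenspace] at h ⊢
    choose k hk using h
    refine ⟨∑ n, k n, ext_comp fun n => ?_⟩
    rw [comp_pow, map_zero]
    obtain ⟨j, hj⟩ := Nat.exists_eq_add_of_le (Finset.single_le_sum (f := k)
      (fun i _ => Nat.zero_le _) (Finset.mem_univ n))
    rw [hj, Nat.add_comm (k n) j, pow_add, Module.End.mul_apply, hk, map_zero]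

/-- Semisimple eigenvalues of a product. -/
theorem semi_frob (F : ∀ n, W n →ₗ[ℂ] W n) (G : ∀ m, H m →ₗ[ℂ] H m) (m : ℕ) (μ : ℂ) :
    SemisimpleAt (frob F G m) μ ↔ ∀ n : Fin (m + 1),
      SemisimpleAt (M := W n ⊗[ℂ] H (m - n)) (TensorProduct.map (F n) (G (m - n))) μ := by
  constructor
  · intro h n
    refine semisimpleAt_of_eig fun x hx => ?_
    obtain ⟨t, ht, ht0⟩ := exists_comp m n x
    have h1 : t ∈ Module.End.maxGenEigenspace (frob F G m) μ := by
      rw [gen_frob]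
      intro j
      by_cases hj : j = n
      · subst hj
        rw [ht]
        exact hx
      · rw [ht0 j hj]
        exact Submodule.zero_mem _
    have h2 := congrArg (comp m n) (h.eig h1)
    rw [comp_frob, map_smul, ht] at h2
    exact h2
  · intro h
    refine semisimpleAt_of_eig fun x hx => ?_
    rw [gen_frob] at hx
    apply ext_comp
    intro n
    rw [comp_frob, map_smul]
    exact (h n).eig (hx n)

/-- For all `i` the eigenvalue `Q ^ i` of Frobenius on the cohomology of degree `2 i` with compact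
supports is semisimple. Since the homology is dual to the cohomology with compact supports, this is
`SS_i` for all `i`. -/
def SemiTate (G : ∀ m, H m →ₗ[ℂ] H m) (Q : ℂ) : Prop :=
  ∀ i : ℕ, SemisimpleAt (G (2 * i)) (Q ^ i)

variable [∀ n, FiniteDimensional ℂ (W n)] [∀ n, FiniteDimensional ℂ (H n)]

/-- The only pairs of eigenvalues of `X` and `U` in complementary degrees whose product is
`Q ^ c` are the pairs `Q ^ a`, `Q ^ b` with `a + b = c` in the degrees `2 a` and `2 b`. -/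
def NoMixed (F : ∀ n, W n →ₗ[ℂ] W n) (G : ∀ m, H m →ₗ[ℂ] H m) (Q : ℂ) : Prop :=
  ∀ (c n m : ℕ) (μ ρ : ℂ), n + m = 2 * c → Module.End.HasEigenvalue (F n) μ →
    Module.End.HasEigenvalue (G m) ρ → μ * ρ = Q ^ c →
    ∃ a b : ℕ, n = 2 * a ∧ m = 2 * b ∧ μ = Q ^ a ∧ ρ = Q ^ b

/-- **The semisimplicity for the product.** -/
theorem semi_iff {F : ∀ n, W n →ₗ[ℂ] W n} {G : ∀ m, H m →ₗ[ℂ] H m} {Q : ℂ} (hQ : Q ≠ 0)
    (h : NoMixed F G Q) (c : ℕ) :
    SemisimpleAt (frob F G (2 * c)) (Q ^ c) ↔ ∀ a b : ℕ, a + b = c →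
      Module.End.HasEigenvalue (F (2 * a)) (Q ^ a) →
      Module.End.HasEigenvalue (G (2 * b)) (Q ^ b) →
      SemisimpleAt (F (2 * a)) (Q ^ a) ∧ SemisimpleAt (G (2 * b)) (Q ^ b) := by
  rw [semi_frob]
  constructor
  · intro h1 a b hab ha hb
    have h2 := (semi_tensor _ _ (pow_ne_zero c hQ)).1 (h1 ⟨2 * a, by omega⟩) (Q ^ a) (Q ^ b) ha
      (by
        have h3 : 2 * c - 2 * a = 2 * b := by omega
        change Module.End.HasEigenvalue (G (2 * c - 2 * a)) (Q ^ b)
        rw [h3]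
        exact hb) (by rw [← pow_add, hab])
    refine ⟨h2.1, ?_⟩
    have h3 : ∀ m, m = 2 * b → SemisimpleAt (G m) (Q ^ b) → SemisimpleAt (G (2 * b)) (Q ^ b) := by
      rintro _ rfl h
      exact h
    exact h3 _ (by change 2 * c - 2 * a = 2 * b; omega) h2.2
  · rintro h1 ⟨n, hn⟩
    rw [semi_tensor _ _ (pow_ne_zero c hQ)]
    intro μ ρ hμ hρ he
    obtain ⟨a, b, ha, hb, rfl, rfl⟩ := h c n (2 * c - n) μ ρ (by omega) hμ hρ he
    have h3 : ∀ n m, n = 2 * a → m = 2 * b → Module.End.HasEigenvalue (F n) (Q ^ a) →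
        Module.End.HasEigenvalue (G m) (Q ^ b) →
        SemisimpleAt (F n) (Q ^ a) ∧ SemisimpleAt (G m) (Q ^ b) := by
      rintro _ _ rfl rfl h4 h5
      exact h1 a b (by omega) h4 h5
    exact h3 _ _ ha hb hμ hρ

/-- **The generalised eigenspaces for the product.** -/
theorem gen_iff {F : ∀ n, W n →ₗ[ℂ] W n} {G : ∀ m, H m →ₗ[ℂ] H m} {Q : ℂ}
    (h : NoMixed F G Q) (c : ℕ) (t : Kunneth W H (2 * c)) :
    t ∈ Module.End.maxGenEigenspace (frob F G (2 * c)) (Q ^ c) ↔ ∀ n : Fin (2 * c + 1),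
      comp (2 * c) n t ∈ Submodule.span ℂ {w | ∃ (d b : ℕ) (x : W n) (y : H (2 * c - n)),
        (n : ℕ) = 2 * d ∧ d + b = c ∧ x ∈ Module.End.maxGenEigenspace (F n) (Q ^ d) ∧
        y ∈ Module.End.maxGenEigenspace (G (2 * c - n)) (Q ^ b) ∧ w = x ⊗ₜ y} := by
  rw [gen_frob]
  refine forall_congr' fun n => ?_
  rw [gen_tensor]
  constructor
  · intro ht
    refine Submodule.span_le.2 ?_ ht
    rintro w ⟨μ, ρ, x, y, he, hx, hy, rfl⟩
    by_cases hx0 : x = 0
    · rw [hx0, TensorProduct.zero_tmul]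
      exact Submodule.zero_mem _
    by_cases hy0 : y = 0
    · rw [hy0, TensorProduct.tmul_zero]
      exact Submodule.zero_mem _
    have hn := n.2
    obtain ⟨a, b, ha, hb, rfl, rfl⟩ := h c n (2 * c - n) μ ρ (by omega)
      (hasEigenvalue_of_gen hx hx0) (hasEigenvalue_of_gen hy hy0) he
    exact Submodule.subset_span ⟨a, b, x, y, ha, by omega, hx, hy, rfl⟩
  · intro ht
    refine Submodule.span_mono ?_ ht
    rintro w ⟨a, b, x, y, hn, hab, hx, hy, rfl⟩
    exact ⟨Q ^ a, Q ^ b, x, y, by rw [← pow_add, hab], hx, hy, rfl⟩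

/-- **Semisimplicity for the product is semisimplicity for the factors.** -/
theorem semiTate_iff {F : ∀ n, W n →ₗ[ℂ] W n} {G : ∀ m, H m →ₗ[ℂ] H m} {Q : ℂ} (hQ : Q ≠ 0)
    (h : NoMixed F G Q) (hF : ∃ a, Module.End.HasEigenvalue (F (2 * a)) (Q ^ a))
    (hG : ∃ b, Module.End.HasEigenvalue (G (2 * b)) (Q ^ b)) :
    SemiTate (frob F G) Q ↔ SemiTate F Q ∧ SemiTate G Q := by
  have hno : ∀ {M : Type} [AddCommGroup M] [Module ℂ M] [FiniteDimensional ℂ M] (T : M →ₗ[ℂ] M)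
      (μ : ℂ), ¬ Module.End.HasEigenvalue T μ → SemisimpleAt T μ := by
    intro M _ _ _ T μ hμ
    refine semisimpleAt_of_eig fun x hx => ?_
    by_cases hx0 : x = 0
    · rw [hx0, map_zero, smul_zero]
    · exact absurd (hasEigenvalue_of_gen hx hx0) hμ
  constructor
  · intro h1
    obtain ⟨a₀, ha₀⟩ := hF
    obtain ⟨b₀, hb₀⟩ := hG
    refine ⟨fun a => ?_, fun b => ?_⟩
    · by_cases ha : Module.End.HasEigenvalue (F (2 * a)) (Q ^ a)
      · exact ((semi_iff hQ h (a + b₀)).1 (h1 _) a b₀ rfl ha hb₀).1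
      · exact hno _ _ ha
    · by_cases hb : Module.End.HasEigenvalue (G (2 * b)) (Q ^ b)
      · exact ((semi_iff hQ h (a₀ + b)).1 (h1 _) a₀ b rfl ha₀ hb).2
      · exact hno _ _ hb
  · rintro ⟨h1, h2⟩ c
    rw [semi_iff hQ h]
    exact fun a b _ _ _ => ⟨h1 a, h2 b⟩

end Pool.Agent.L7h89.SS
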