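import Mathlib
import Pool.Agent.Y1.CT.UnrelDefs
import Pool.Agent.Y137.MV.Defs

/-!
# Products of Weil numbers of maximal angle rank and unrelated numbers
-/

set_option autoImplicit false
set_option linter.unusedSectionVars false
set_option linter.unusedVariables false

namespace Pool.Agent.L7h89.SS

open NumberField Finset Module

/-- Pairs of elements with product `Q`. -/
theorem pairs_of_count {Y : Type} [DecidableEq Y] (inv : Y → Y) (hne : ∀ y, inv y ≠ y)
    (hinv : ∀ y, inv (inv y) = y)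
    {Q : ℂ} (v : Y → ℂ) (hv : ∀ y, v y * v (inv y) = Q) :
    ∀ (n : ℕ) (L : List Y), L.length = n → (∀ y, L.count y = L.count (inv y)) →
      ∃ k : ℕ, n = 2 * k ∧ (L.map v).prod = Q ^ k := by
  intro n
  induction n using Nat.strong_induction_on with
  | _ n ih =>
    intro L hL hc
    cases L with
    | nil => exact ⟨0, by simpa using hL.symm, by simp⟩
    | cons y L =>
      have h1 : inv y ∈ L := by
        have h2 := hc y
        rw [List.count_cons_self, List.count_cons_of_ne (hne y).symm] at h2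
        exact List.count_pos_iff.1 (by omega)
      obtain ⟨L', hL'⟩ : ∃ L', L.Perm (inv y :: L') := ⟨L.erase (inv y), List.perm_cons_erase h1⟩
      have hlen : n = L'.length + 2 := by
        have h2 := hL'.length_eq
        rw [List.length_cons] at h2 hL
        omega
      obtain ⟨k, hk, hprod⟩ := ih L'.length (by omega) L' rfl (by
        intro z
        have h2 := hc z
        rw [List.count_cons, List.count_cons, hL'.count_eq z, hL'.count_eq (inv z),
          List.count_cons, List.count_cons] at h2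
        by_cases h3 : y = z
        · subst h3
          simp only [beq_self_eq_true, if_true, beq_iff_eq, hne y, (hne y).symm, if_false] at h2
          omega
        by_cases h4 : y = inv z
        · subst h4
          have h5 : inv z ≠ z := hne z
          simp only [hinv, beq_self_eq_true, if_true, beq_iff_eq, h5, h5.symm, if_false] at h2
          omega
        · have h5 : inv y ≠ z := by
            rintro rfl
            exact h4 (hinv y).symm
          have h6 : inv y ≠ inv z := by
            intro h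
            apply h3
            rw [← hinv y, h, hinv]
          simp only [beq_iff_eq, h3, h4, h5, h6, if_false] at h2
          omega)
      refine ⟨k + 1, by omega, ?_⟩
      rw [List.map_cons, List.prod_cons, (hL'.map v).prod_eq, List.map_cons, List.prod_cons,
        ← mul_assoc, hv, hprod, pow_succ']

section Rel

open Pool.Agent.Y137.MV Pool.Agent.Y1.CT

variable {I : Type} [Fintype I]
  {K : I → Type} [∀ i, Field (K i)] [∀ i, NumberField (K i)] [∀ i, IsCMField (K i)]

/-- The complex conjugates of the numbers `π i`. -/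
noncomputable def val (π : ∀ i, K i) (y : Σ i, (K i →+* ℂ)) : ℂ := y.2 (π y.1)

/-- The conjugate embedding. -/
noncomputable def bar (y : Σ i, (K i →+* ℂ)) : Σ i, (K i →+* ℂ) :=
  ⟨y.1, ComplexEmbedding.conjugate y.2⟩

theorem conj_conj' {F : Type} [Field F] (φ : F →+* ℂ) :
    ComplexEmbedding.conjugate (ComplexEmbedding.conjugate φ) = φ := by
  ext x
  simp

theorem comp_conj' {F : Type} [Field F] [NumberField F] [IsCMField F] (τ : ℂ ≃+* ℂ) (φ : F →+* ℂ) :
    (τ : ℂ →+* ℂ).comp (ComplexEmbedding.conjugate φ) =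
      ComplexEmbedding.conjugate ((τ : ℂ →+* ℂ).comp φ) := by
  ext x
  have h1 : ComplexEmbedding.conjugate φ x = φ (IsCMField.complexConj F x) := by
    rw [IsCMField.complexEmbedding_complexConj]
    rfl
  have h2 : ComplexEmbedding.conjugate ((τ : ℂ →+* ℂ).comp φ) x =
      ((τ : ℂ →+* ℂ).comp φ) (IsCMField.complexConj F x) := by
    rw [IsCMField.complexEmbedding_complexConj]
    rfl
  rw [h2, RingHom.comp_apply, RingHom.comp_apply, h1]

theorem bar_bar (y : Σ i, (K i →+* ℂ)) : bar (bar y) = y := by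
  rcases y with ⟨i, φ⟩
  exact Sigma.ext rfl (heq_of_eq (conj_conj' φ))

theorem bar_ne (y : Σ i, (K i →+* ℂ)) : bar y ≠ y := by
  rcases y with ⟨i, φ⟩
  intro h
  have h1 : ComplexEmbedding.conjugate φ = φ := eq_of_heq (Sigma.mk.inj h).2
  have h2 : ComplexEmbedding.IsReal φ := h1
  have h3 := (IsTotallyComplex.isComplex (InfinitePlace.mk φ))
  exact (InfinitePlace.isComplex_iff.1 h3) (by
    rcases InfinitePlace.embedding_mk_eq φ with h4 | h4
    · rw [h4]; exact h2
    · rw [h4, h1]; exact h2)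

/-- **There are no relations with unrelated numbers.** -/
theorem relation {p a : ℕ} [Fact p.Prime] {π : ∀ i, K i} (hang : MaximalAngleRank (p ^ a) π)
    (hw : ∀ i, π i * IsCMField.complexConj (K i) (π i) = (p : K i) ^ a) (s : ℕ) (hs : 0 < s)
    (ρ : ℂ) (hρ : Unrelated K ρ) (L : List (Σ i, (K i →+* ℂ))) (c : ℤ) (N : ℕ) (hN : 0 < N)
    (hrel : ((L.map fun y => val π y ^ s).prod * ρ) ^ N = ((((p ^ a : ℕ) : ℂ) ^ s) ^ c) ^ N) :
    ∃ k : ℕ, L.length = 2 * k ∧
      (L.map fun y => val π y ^ s).prod = (((p ^ a : ℕ) : ℂ) ^ s) ^ k := by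
  classical
  have hp0 : (p : ℂ) ≠ 0 := Nat.cast_ne_zero.2 (Fact.out : p.Prime).ne_zero
  have hπ0 : ∀ i, π i ≠ 0 := by
    intro i h0
    have h1 := hw i
    rw [h0, zero_mul] at h1
    exact pow_ne_zero a (Nat.cast_ne_zero.2 (Fact.out : p.Prime).ne_zero) h1.symm
  let Y : Type := Σ i, (K i →+* ℂ)
  let w : Y → ℂ := fun y => y.2 (π y.1)
  have hw0 : ∀ y, w y ≠ 0 := fun y => (_root_.map_ne_zero _).2 (hπ0 _)
  let cnt : Y → ℕ := fun y => L.count y
  have hprod : ∀ l : List Y, (l.map fun y => w y ^ s).prod = ∏ y, w y ^ (s * l.count y) := by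
    intro l
    induction l with
    | nil => simp
    | cons b l ih =>
      rw [List.map_cons, List.prod_cons, ih]
      have h1 : ∀ y, w y ^ (s * (b :: l).count y) =
          w y ^ (s * l.count y) * (if b = y then w y ^ s else 1) := by
        intro y
        rw [List.count_cons]
        by_cases h : b = y
        · rw [if_pos (by simpa using h), if_pos h, mul_add, pow_add, mul_one]
        · rw [if_neg (by simpa using h), if_neg h, add_zero, mul_one]
      rw [Finset.prod_congr rfl (fun y _ => h1 y), Finset.prod_mul_distrib, Finset.prod_ite_eq,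
        if_pos (Finset.mem_univ _), mul_comm]
  have hrel1 : ((∏ y, w y ^ (s * cnt y)) * ρ) ^ N = ((((p ^ a : ℕ) : ℂ) ^ s) ^ c) ^ N := by
    rw [← hprod L]
    exact hrel
  have hcnt : ∀ y : Y, L.count y = L.count (bar y) := by
    rintro ⟨i, φ⟩
    let m : (K i →+* ℂ) → ℚ := fun ψ =>
      (cnt ⟨i, ψ⟩ : ℚ) - (cnt ⟨i, ComplexEmbedding.conjugate ψ⟩ : ℚ)
    have hodd : ∀ ψ, m (ComplexEmbedding.conjugate ψ) = - m ψ := by
      intro ψ
      simp only [m, conj_conj']
      ring
    have hinv : ∀ τ : ℂ ≃+* ℂ, (∃ t : ℕ, 0 < t ∧ τ (ρ ^ t) = ρ ^ t) →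
        ∀ ψ : K i →+* ℂ, m ((τ : ℂ →+* ℂ).comp ψ) = m ψ := by
      rintro τ ⟨t, ht, hτ⟩ ψ
      let tr : Y ≃ Y :=
        { toFun := fun y => ⟨y.1, (τ : ℂ →+* ℂ).comp y.2⟩
          invFun := fun y => ⟨y.1, (τ.symm : ℂ →+* ℂ).comp y.2⟩
          left_inv := fun y => by
            have h1 : (τ.symm : ℂ →+* ℂ).comp ((τ : ℂ →+* ℂ).comp y.2) = y.2 := by
              ext x
              simp
            exact Sigma.ext rfl (heq_of_eq h1)
          right_inv := fun y => by
            have h1 : (τ : ℂ →+* ℂ).comp ((τ.symm : ℂ →+* ℂ).comp y.2) = y.2 := by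
              ext x
              simp
            exact Sigma.ext rfl (heq_of_eq h1) }
      -- the relation and its image
      have hA : (∏ y, w y ^ (s * cnt y)) ^ (N * t) * ρ ^ (N * t) =
          ((((p ^ a : ℕ) : ℂ) ^ s) ^ c) ^ (N * t) := by
        rw [← mul_pow, pow_mul, hrel1, ← pow_mul]
      have hB : (∏ y, w (tr y) ^ (s * cnt y)) ^ (N * t) * ρ ^ (N * t) =
          ((((p ^ a : ℕ) : ℂ) ^ s) ^ c) ^ (N * t) := by
        have h1 := congrArg τ hA
        rw [map_mul, map_pow τ (∏ y, w y ^ (s * cnt y)), map_prod] at h1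
        have h2 : τ (ρ ^ (N * t)) = ρ ^ (N * t) := by
          rw [mul_comm, pow_mul, map_pow, hτ]
        rw [h2] at h1
        have h3 : τ (((((p ^ a : ℕ) : ℂ) ^ s) ^ c) ^ (N * t)) =
            ((((p ^ a : ℕ) : ℂ) ^ s) ^ c) ^ (N * t) := by
          rw [map_pow, map_zpow₀, map_pow, map_natCast]
        rw [h3] at h1
        rw [← h1]
        congr 2
        refine Finset.prod_congr rfl fun y _ => ?_
        rw [map_pow]
        rfl
      have hρ0 : ρ ^ (N * t) ≠ 0 := pow_ne_zero _ hρ.1
      have hC : (∏ y, w (tr y) ^ (s * cnt y)) ^ (N * t) = (∏ y, w y ^ (s * cnt y)) ^ (N * t) :=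
        mul_right_cancel₀ hρ0 (hB.trans hA.symm)
      have hD : ∏ y, w (tr y) ^ (s * cnt y) = ∏ y, w y ^ (s * cnt (tr.symm y)) := by
        refine Fintype.prod_equiv tr _ _ fun y => ?_
        rw [Equiv.symm_apply_apply]
      rw [hD, ← Finset.prod_pow, ← Finset.prod_pow] at hC
      have hE : ∏ y : Y, (y.2 (π y.1)) ^ (((s * (N * t) : ℕ) : ℤ) *
          ((cnt (tr.symm y) : ℤ) - cnt y)) = (((p ^ a : ℕ)) : ℂ) ^ (0 : ℤ) := by
        have h1 : ∀ y : Y, (y.2 (π y.1)) ^ (((s * (N * t) : ℕ) : ℤ) *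
            ((cnt (tr.symm y) : ℤ) - cnt y)) =
            (w y ^ (s * cnt (tr.symm y))) ^ (N * t) / (w y ^ (s * cnt y)) ^ (N * t) := by
          intro y
          change w y ^ _ = _
          rw [mul_sub, zpow_sub₀ (hw0 y), ← pow_mul, ← pow_mul, ← zpow_natCast, ← zpow_natCast]
          congr 2
          · push_cast
            ring
          · push_cast
            ring
        rw [Finset.prod_congr rfl (fun y _ => h1 y), Finset.prod_div_distrib, hC, zpow_zero]
        exact div_self (Finset.prod_ne_zero_iff.2 fun y _ =>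
          pow_ne_zero _ (pow_ne_zero _ (hw0 y)))
      have hF := hang 0 (fun y => ((s * (N * t) : ℕ) : ℤ) * ((cnt (tr.symm y) : ℤ) - cnt y)) hE i
        ((τ : ℂ →+* ℂ).comp ψ)
      have hNt : ((s * (N * t) : ℕ) : ℤ) ≠ 0 := by
        exact_mod_cast (Nat.mul_pos hs (Nat.mul_pos hN ht)).ne'
      have hG := mul_left_cancel₀ hNt hF
      have h4 : tr.symm ⟨i, (τ : ℂ →+* ℂ).comp ψ⟩ = ⟨i, ψ⟩ := by
        rw [Equiv.symm_apply_eq]
        rfl
      have h5 : tr.symm ⟨i, ComplexEmbedding.conjugate ((τ : ℂ →+* ℂ).comp ψ)⟩ =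
          ⟨i, ComplexEmbedding.conjugate ψ⟩ := by
        rw [Equiv.symm_apply_eq]
        change _ = (⟨i, (τ : ℂ →+* ℂ).comp (ComplexEmbedding.conjugate ψ)⟩ : Y)
        rw [comp_conj']
      rw [h4, h5] at hG
      have hH : (((cnt ⟨i, ψ⟩ : ℤ) - cnt ⟨i, (τ : ℂ →+* ℂ).comp ψ⟩ : ℤ) : ℚ) =
          (((cnt ⟨i, ComplexEmbedding.conjugate ψ⟩ : ℤ) -
            cnt ⟨i, ComplexEmbedding.conjugate ((τ : ℂ →+* ℂ).comp ψ)⟩ : ℤ) : ℚ) := by
        rw [hG]
      push_cast at hH
      simp only [m]
      linarith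
    have h0 := hρ.2 i m hodd hinv
    have h1 : m φ = 0 := by rw [h0]; rfl
    simp only [m] at h1
    have h2 := sub_eq_zero.1 h1
    exact_mod_cast h2
  obtain ⟨k, hk1, hk2⟩ := pairs_of_count (bar (K := K)) bar_ne bar_bar
    (fun y => val π y ^ s) (Q := ((p ^ a : ℕ) : ℂ) ^ s) (by
      intro y
      rw [← mul_pow]
      congr 1
      have h4 := congrArg y.2 (hw y.1)
      rw [map_mul, IsCMField.complexEmbedding_complexConj, map_pow, map_natCast] at h4
      change y.2 (π y.1) * (ComplexEmbedding.conjugate y.2) (π y.1) = _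
      rw [ComplexEmbedding.conjugate_coe_eq, h4]
      push_cast
      rfl) L.length L rfl hcnt
  exact ⟨k, hk1, hk2⟩

/-- The absolute values. -/
theorem norm_val {p a : ℕ} {π : ∀ i, K i}
    (hw : ∀ i, π i * IsCMField.complexConj (K i) (π i) = (p : K i) ^ a)
    (y : Σ i, (K i →+* ℂ)) : ‖val π y‖ ^ 2 = (p : ℝ) ^ a := by
  have h4 := congrArg y.2 (hw y.1)
  rw [map_mul, IsCMField.complexEmbedding_complexConj, map_pow, map_natCast] at h4
  have h5 := congrArg (fun z : ℂ => ‖z‖) h4
  simp only [norm_mul, norm_pow, Complex.norm_natCast] at h5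
  rw [RCLike.norm_conj] at h5
  rw [pow_two]
  exact h5

end Rel

end Pool.Agent.L7h89.SS
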