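import Mathlib
import Pool.Agent.L7h89.SS.Kun
import Pool.Agent.L7h89.SS.Rel

/-!
# Semisimplicity for the products of varieties of abelian type with unrelated varieties
-/

set_option autoImplicit false

namespace Pool.Agent.L7h89.SS

open Module TensorProduct NumberField Pool.Agent.Y137.MV Pool.Agent.Y1.CT

variable {W H : ℕ → Type} [∀ n, AddCommGroup (W n)] [∀ n, Module ℂ (W n)]
  [∀ m, AddCommGroup (H m)] [∀ m, Module ℂ (H m)]

section Defs

variable {I : Type} {K : I → Type} [∀ i, Field (K i)]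

/-- The eigenvalues of the Frobenius endomorphism `F` over the field with `Q` elements (`Q = q ^ s`)
on the cohomology of degree `n` are of the form `Q ^ j * ∏ l, φ_l (π (i_l)) ^ s`, with `k` complex
embeddings `φ_l` of the fields `K (i_l)` and `2 j + k ≤ n`. -/
def OfType (π : ∀ i, K i) (Q : ℂ) (s : ℕ) (F : ∀ n, W n →ₗ[ℂ] W n) : Prop :=
  ∀ (n : ℕ) (μ : ℂ), Module.End.HasEigenvalue (F n) μ →
    ∃ (L : List (Σ i, (K i →+* ℂ))) (j : ℕ), 2 * j + L.length ≤ n ∧
      μ = Q ^ j * (L.map fun y => (y.2 (π y.1)) ^ s).prod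

/-- The eigenvalues `ρ` of Frobenius on the cohomology with compact supports of degree `m` are not
zero and unrelated to the fields `K i`, and of weight at most `m` (the theorem of Deligne). -/
def UnrelatedWeights (K : I → Type) [∀ i, Field (K i)] (Q : ℝ) (G : ∀ m, H m →ₗ[ℂ] H m) : Prop :=
  ∀ (m : ℕ) (ρ : ℂ), Module.End.HasEigenvalue (G m) ρ → Unrelated K ρ ∧ ‖ρ‖ ^ 2 ≤ Q ^ m

end Defs

variable {I : Type} [Fintype I]
  {K : I → Type} [∀ i, Field (K i)] [∀ i, NumberField (K i)] [∀ i, IsCMField (K i)]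

theorem norm_list {p a : ℕ} {π : ∀ i, K i}
    (hw : ∀ i, π i * IsCMField.complexConj (K i) (π i) = (p : K i) ^ a) (s : ℕ)
    (L : List (Σ i, (K i →+* ℂ))) :
    ‖(L.map fun y => (y.2 (π y.1)) ^ s).prod‖ ^ 2 = (((p : ℝ) ^ a) ^ s) ^ L.length := by
  induction L with
  | nil => simp
  | cons y L ih =>
    rw [List.map_cons, List.prod_cons, norm_mul, mul_pow, ih, norm_pow, List.length_cons,
      pow_succ' _ L.length]
    congr 1
    have h := norm_val hw y
    rw [← pow_mul, mul_comm s 2, pow_mul]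
    exact congrArg (fun x => x ^ s) h

/-- **No mixed relations.** -/
theorem noMixed {p a : ℕ} [Fact p.Prime] (ha : 0 < a) {π : ∀ i, K i}
    (hang : MaximalAngleRank (p ^ a) π)
    (hw : ∀ i, π i * IsCMField.complexConj (K i) (π i) = (p : K i) ^ a) (s : ℕ) (hs : 0 < s)
    {F : ∀ n, W n →ₗ[ℂ] W n} {G : ∀ m, H m →ₗ[ℂ] H m}
    (hF : OfType π (((p : ℂ) ^ a) ^ s) s F)
    (hG : UnrelatedWeights K (((p : ℝ) ^ a) ^ s) G) : NoMixed F G (((p : ℂ) ^ a) ^ s) := by
  intro c n m μ ρ hnm hμ hρ he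
  obtain ⟨L, j, hj, rfl⟩ := hF n μ hμ
  obtain ⟨hρ1, hρ2⟩ := hG m ρ hρ
  have hp1 : 1 < p := (Fact.out : p.Prime).one_lt
  set Q : ℂ := ((p : ℂ) ^ a) ^ s with hQ
  have hp0 : (p : ℂ) ≠ 0 := Nat.cast_ne_zero.2 (by omega)
  have hQ0 : Q ≠ 0 := pow_ne_zero _ (pow_ne_zero _ hp0)
  have hrel : (L.map fun y => (y.2 (π y.1)) ^ s).prod * ρ = Q ^ ((c : ℤ) - j) := by
    rw [zpow_sub₀ hQ0, zpow_natCast, zpow_natCast, eq_div_iff (pow_ne_zero _ hQ0), ← he]
    ring
  obtain ⟨k, hk, hprod⟩ := relation hang hw s hs ρ hρ1 L ((c : ℤ) - j) 1 one_pos (by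
    rw [pow_one, pow_one]
    push_cast
    exact hrel)
  have hprod' : (L.map fun y => (y.2 (π y.1)) ^ s).prod = Q ^ k := by
    have h1 : (L.map fun y => (y.2 (π y.1)) ^ s).prod = (((p ^ a : ℕ) : ℂ) ^ s) ^ k := hprod
    rw [h1]
    push_cast
    rfl
  rw [hprod'] at he hrel ⊢
  -- the weights
  set q : ℝ := ((p : ℝ) ^ a) ^ s with hq
  have hq1 : 1 < q := one_lt_pow₀ (one_lt_pow₀ (by exact_mod_cast hp1) ha.ne') hs.ne'
  have hQq : ‖Q‖ = q := by
    rw [hQ, hq, norm_pow, norm_pow, Complex.norm_natCast]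
  have h1 : (q ^ (j + k)) ^ 2 * ‖ρ‖ ^ 2 = (q ^ c) ^ 2 := by
    have h2 := congrArg (fun z : ℂ => ‖z‖ ^ 2) he
    simp only [norm_mul, norm_pow, hQq, mul_pow] at h2
    rw [← h2, pow_add]
    ring
  have h2' : q ^ (2 * c) ≤ q ^ (2 * (j + k) + m) := by
    calc q ^ (2 * c) = (q ^ c) ^ 2 := by ring
      _ = (q ^ (j + k)) ^ 2 * ‖ρ‖ ^ 2 := h1.symm
      _ ≤ (q ^ (j + k)) ^ 2 * q ^ m := mul_le_mul_of_nonneg_left hρ2 (by positivity)
      _ = q ^ (2 * (j + k) + m) := by ring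
  have h2 := (pow_le_pow_iff_right₀ hq1).1 h2'
  have h3 : n = 2 * (j + k) := by omega
  have h4 : m = 2 * (c - (j + k)) := by omega
  refine ⟨j + k, c - (j + k), h3, h4, by rw [pow_add], ?_⟩
  have h5 : Q ^ (j + k) * ρ = Q ^ (j + k) * Q ^ (c - (j + k)) := by
    rw [← pow_add, Nat.add_sub_cancel' (by omega), ← he]
    ring
  exact mul_left_cancel₀ (pow_ne_zero _ hQ0) h5

/-- **No mixed relations, pure case.** -/
theorem noMixed_pure {p a : ℕ} [Fact p.Prime] {π : ∀ i, K i}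
    (hang : MaximalAngleRank (p ^ a) π)
    (hw : ∀ i, π i * IsCMField.complexConj (K i) (π i) = (p : K i) ^ a) (s : ℕ) (hs : 0 < s)
    {F : ∀ n, W n →ₗ[ℂ] W n} {G : ∀ m, H m →ₗ[ℂ] H m}
    (hF : ∀ (n : ℕ) (μ : ℂ), Module.End.HasEigenvalue (F n) μ →
      ∃ (L : List (Σ i, (K i →+* ℂ))) (j : ℕ), 2 * j + L.length = n ∧
        μ = (((p : ℂ) ^ a) ^ s) ^ j * (L.map fun y => (y.2 (π y.1)) ^ s).prod)
    (hG : ∀ (m : ℕ) (ρ : ℂ), Module.End.HasEigenvalue (G m) ρ → Unrelated K ρ) :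
    NoMixed F G (((p : ℂ) ^ a) ^ s) := by
  intro c n m μ ρ hnm hμ hρ he
  obtain ⟨L, j, hj, rfl⟩ := hF n μ hμ
  have hρ1 := hG m ρ hρ
  have hp1 : 1 < p := (Fact.out : p.Prime).one_lt
  set Q : ℂ := ((p : ℂ) ^ a) ^ s with hQ
  have hp0 : (p : ℂ) ≠ 0 := Nat.cast_ne_zero.2 (by omega)
  have hQ0 : Q ≠ 0 := pow_ne_zero _ (pow_ne_zero _ hp0)
  have hrel : (L.map fun y => (y.2 (π y.1)) ^ s).prod * ρ = Q ^ ((c : ℤ) - j) := by
    rw [zpow_sub₀ hQ0, zpow_natCast, zpow_natCast, eq_div_iff (pow_ne_zero _ hQ0), ← he]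
    ring
  obtain ⟨k, hk, hprod⟩ := relation hang hw s hs ρ hρ1 L ((c : ℤ) - j) 1 one_pos (by
    rw [pow_one, pow_one]
    push_cast
    exact hrel)
  have hprod' : (L.map fun y => (y.2 (π y.1)) ^ s).prod = Q ^ k := by
    have h1 : (L.map fun y => (y.2 (π y.1)) ^ s).prod = (((p ^ a : ℕ) : ℂ) ^ s) ^ k := hprod
    rw [h1]
    push_cast
    rfl
  rw [hprod'] at he hrel ⊢
  have h3 : n = 2 * (j + k) := by omega
  have h4 : m = 2 * (c - (j + k)) := by omega
  refine ⟨j + k, c - (j + k), h3, h4, by rw [pow_add], ?_⟩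
  have h5 : Q ^ (j + k) * ρ = Q ^ (j + k) * Q ^ (c - (j + k)) := by
    rw [← pow_add, Nat.add_sub_cancel' (by omega), ← he]
    ring
  exact mul_left_cancel₀ (pow_ne_zero _ hQ0) h5

section Abelian

variable {V : Type} [AddCommGroup V] [Module ℂ V]

/-- The Frobenius endomorphism of the cohomology of an abelian variety with the first cohomology
`V`. -/
noncomputable def ext (F : V →ₗ[ℂ] V) (n : ℕ) : (⋀[ℂ]^n V) →ₗ[ℂ] (⋀[ℂ]^n V) :=
  exteriorPower.map n F

/-- `F` is diagonalizable and its eigenvalues are the numbers `φ (π i)`, `φ` a complex embedding of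
`K i`: the Frobenius endomorphism on the first cohomology of an abelian variety which is isogenous
to a product of powers of abelian varieties with the Weil numbers `π i`. -/
def IsFrob {I : Type} {K : I → Type} [∀ i, Field (K i)] (π : ∀ i, K i) (F : V →ₗ[ℂ] V) : Prop :=
  Submodule.span ℂ {v : V | ∃ (i : I) (φ : K i →+* ℂ), F v = φ (π i) • v} = ⊤

theorem span_pow {I : Type} {K : I → Type} [∀ i, Field (K i)] {π : ∀ i, K i} {F : V →ₗ[ℂ] V}
    (h : IsFrob π F) (s n : ℕ) :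
    Submodule.span ℂ {v : ⋀[ℂ]^n V | ∃ α ∈ {α : ℂ | ∃ L : List (Σ i, (K i →+* ℂ)),
      L.length = n ∧ α = (L.map fun y => (y.2 (π y.1)) ^ s).prod}, ext (F ^ s) n v = α • v} = ⊤ := by
  rw [eq_top_iff, ← exteriorPower.ιMulti_span_of_span ℂ n V h]
  refine Submodule.span_mono ?_
  rintro _ ⟨a, ha, rfl⟩
  have h2 : ∀ j, ∃ y : Σ i, (K i →+* ℂ), F (a j) = (y.2 (π y.1)) • a j := fun j => by
    obtain ⟨i, φ, h⟩ := ha ⟨j, rfl⟩
    exact ⟨⟨i, φ⟩, h⟩
  choose x hFa using h2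
  have hFs : ∀ j, (F ^ s) (a j) = (((x j).2 (π (x j).1)) ^ s) • a j := by
    intro j
    induction s with
    | zero => simp
    | succ s ih => rw [pow_succ', Module.End.mul_apply, ih, map_smul, hFa, smul_smul, pow_succ]
  refine ⟨∏ j, ((x j).2 (π (x j).1)) ^ s, ⟨List.ofFn x, by simp, ?_⟩, ?_⟩
  · rw [List.map_ofFn, List.prod_ofFn]
    rfl
  · rw [ext, exteriorPower.map_apply_ιMulti]
    have h3 : (F ^ s) ∘ a = fun j => (((x j).2 (π (x j).1)) ^ s) • a j := funext hFs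
    rw [h3]
    exact (exteriorPower.ιMulti ℂ n).map_smul_univ _ a

end Abelian

/-- The vector `w` of `H^n (X) ⊗ H^(2 c - n) (U)` is a tensor product of generalised eigenvectors for
`Q ^ d` and `Q ^ b`, with `n = 2 d` and `d + b = c`. -/
def IsProductVector (F : ∀ n, W n →ₗ[ℂ] W n) (G : ∀ m, H m →ₗ[ℂ] H m) (Q : ℂ) (c n : ℕ)
    (w : W n ⊗[ℂ] H (2 * c - n)) : Prop :=
  ∃ (d b : ℕ) (x : W n) (y : H (2 * c - n)), n = 2 * d ∧ d + b = c ∧
    x ∈ Module.End.maxGenEigenspace (F n) (Q ^ d) ∧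
    y ∈ Module.End.maxGenEigenspace (G (2 * c - n)) (Q ^ b) ∧ w = x ⊗ₜ y

/-- The generalised eigenspaces of Frobenius for `Q ^ c` on the cohomology with compact supports of
degree `2 c` of `X × U` are the sums over `d + b = c` of the tensor products of those for `Q ^ d` and
`Q ^ b` in the degrees `2 d` and `2 b` of `X` and `U`. -/
def GenIsProduct (F : ∀ n, W n →ₗ[ℂ] W n) (G : ∀ m, H m →ₗ[ℂ] H m) (Q : ℂ) : Prop :=
  ∀ (c : ℕ) (t : Kunneth W H (2 * c)),
    t ∈ Module.End.maxGenEigenspace (frob F G (2 * c)) (Q ^ c) ↔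
      ∀ n : Fin (2 * c + 1), comp (2 * c) n t ∈ Submodule.span ℂ {w | IsProductVector F G Q c n w}

/-- `SS_c (X × U)` holds if and only if `SS_d (X)` and `SS_b (U)` hold for all `d + b = c` for which
`Q ^ d` and `Q ^ b` are eigenvalues in the degrees `2 d` and `2 b`. -/
def SemiInDegrees (F : ∀ n, W n →ₗ[ℂ] W n) (G : ∀ m, H m →ₗ[ℂ] H m) (Q : ℂ) : Prop :=
  ∀ c : ℕ, SemisimpleAt (frob F G (2 * c)) (Q ^ c) ↔ ∀ d b : ℕ, d + b = c →
    Module.End.HasEigenvalue (F (2 * d)) (Q ^ d) → Module.End.HasEigenvalue (G (2 * b)) (Q ^ b) →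
      SemisimpleAt (F (2 * d)) (Q ^ d) ∧ SemisimpleAt (G (2 * b)) (Q ^ b)

/-- If there are such eigenvalues at all (that is for nonempty varieties), `SS_c (X × U)` for all `c`
is equivalent to `SS_d (X)` and `SS_b (U)` for all `d` and `b`. -/
def SemiInAllDegrees (F : ∀ n, W n →ₗ[ℂ] W n) (G : ∀ m, H m →ₗ[ℂ] H m) (Q : ℂ) : Prop :=
  (∃ d, Module.End.HasEigenvalue (F (2 * d)) (Q ^ d)) →
    (∃ b, Module.End.HasEigenvalue (G (2 * b)) (Q ^ b)) →
      (SemiTate (frob F G) Q ↔ SemiTate F Q ∧ SemiTate G Q)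

/-- **The products of two arbitrary varieties** `X` and `U` over the field with `Q = q ^ s` elements,
`q = p ^ a`, the eigenvalues of Frobenius for `X` being of the form
`Q ^ j * ∏ l, φ_l (π (i_l)) ^ s`, and those for `U` unrelated to the fields `K i`. -/
def ProductsOfVarieties (p a s : ℕ) {I : Type} (K : I → Type) [∀ i, Field (K i)]
    (π : ∀ i, K i) : Prop :=
  ∀ (W H : ℕ → Type) [∀ n, AddCommGroup (W n)] [∀ n, Module ℂ (W n)]
    [∀ n, FiniteDimensional ℂ (W n)] [∀ m, AddCommGroup (H m)] [∀ m, Module ℂ (H m)]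
    [∀ m, FiniteDimensional ℂ (H m)] (F : ∀ n, W n →ₗ[ℂ] W n) (G : ∀ m, H m →ₗ[ℂ] H m),
    OfType π (((p : ℂ) ^ a) ^ s) s F → UnrelatedWeights K (((p : ℝ) ^ a) ^ s) G →
      GenIsProduct F G (((p : ℂ) ^ a) ^ s) ∧ SemiInDegrees F G (((p : ℂ) ^ a) ^ s) ∧
        SemiInAllDegrees F G (((p : ℂ) ^ a) ^ s)

/-- **The products `A × U`** of an abelian variety `A` over the field with `Q = q ^ s` elements,
`q = p ^ a`, which comes from the field with `q` elements and has the Weil numbers `π i`, and an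
arbitrary variety `U`, the eigenvalues for which are unrelated to the fields `K i`: `SS_c (A × U)` for
all `c` is equivalent to `SS_b (U)` for all `b`. -/
def ProductsWithAbelian (p a s : ℕ) {I : Type} (K : I → Type) [∀ i, Field (K i)]
    (π : ∀ i, K i) : Prop :=
  ∀ (V : Type) [AddCommGroup V] [Module ℂ V] [FiniteDimensional ℂ V] (F : V →ₗ[ℂ] V),
    IsFrob π F → ∀ (H : ℕ → Type) [∀ m, AddCommGroup (H m)] [∀ m, Module ℂ (H m)]
      [∀ m, FiniteDimensional ℂ (H m)] (G : ∀ m, H m →ₗ[ℂ] H m),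
      (∀ (m : ℕ) (ρ : ℂ), Module.End.HasEigenvalue (G m) ρ → Unrelated K ρ) →
      (SemiTate (frob (ext (F ^ s)) G) (((p : ℂ) ^ a) ^ s) ↔ SemiTate G (((p : ℂ) ^ a) ^ s))

/-- **Semisimplicity for the products of arbitrary varieties with varieties of abelian type.** The
numbers `π i` are Weil numbers for `q = p ^ a` in the fields `K i`. -/
def SemisimplicityIsMultiplicative (p a : ℕ) {I : Type} (K : I → Type) [∀ i, Field (K i)]
    (π : ∀ i, K i) : Prop :=
  ∀ s : ℕ, 0 < s → ProductsOfVarieties p a s K π ∧ ProductsWithAbelian p a s K π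

/-- The number one is an eigenvalue on the cohomology of degree zero of an abelian variety. -/
theorem eig_zero {V : Type} [AddCommGroup V] [Module ℂ V] (F : V →ₗ[ℂ] V) :
    Module.End.HasEigenvalue (ext F 0) 1 := by
  let w : ⋀[ℂ]^0 V := (exteriorPower.zeroEquiv (R := ℂ) (M := V)).symm 1
  refine Module.End.hasEigenvalue_of_hasEigenvector (x := w) ⟨?_, ?_⟩
  · rw [Module.End.mem_eigenspace_iff, one_smul]
    have h1 : exteriorPower.map 0 F = LinearMap.id := by
      refine exteriorPower.linearMap_ext ?_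
      ext m
      simp only [LinearMap.compAlternatingMap_apply, exteriorPower.map_apply_ιMulti,
        LinearMap.id_apply]
      congr 2
      exact Subsingleton.elim _ _
    rw [ext, h1, LinearMap.id_apply]
  · intro h
    have h1 := congrArg (exteriorPower.zeroEquiv (R := ℂ) (M := V)) h
    simp [w] at h1

theorem multiplicative {p a : ℕ} [Fact p.Prime] (ha : 0 < a) {π : ∀ i, K i}
    (hw : ∀ i, π i * IsCMField.complexConj (K i) (π i) = (p : K i) ^ a)
    (hang : MaximalAngleRank (p ^ a) π) : SemisimplicityIsMultiplicative p a K π := by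
  intro s hs
  have hp0 : (p : ℂ) ≠ 0 := Nat.cast_ne_zero.2 (Fact.out : p.Prime).ne_zero
  have hQ0 : ((p : ℂ) ^ a) ^ s ≠ 0 := pow_ne_zero _ (pow_ne_zero _ hp0)
  constructor
  · intro W H _ _ _ _ _ _ F G hF hG
    have h := noMixed ha hang hw s hs hF hG
    exact ⟨fun c t => gen_iff h c t, fun c => semi_iff hQ0 h c, fun h1 h2 =>
      semiTate_iff hQ0 h h1 h2⟩
  · intro V _ _ _ F hF H _ _ _ G hG
    have hspan := span_pow hF s
    have h : NoMixed (ext (F ^ s)) G (((p : ℂ) ^ a) ^ s) := noMixed_pure hang hw s hs (by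
      intro n μ hμ
      obtain ⟨L, hL, rfl⟩ := (of_span_eig (hspan n)).1 μ hμ
      exact ⟨L, 0, by omega, by rw [pow_zero, one_mul]⟩) hG
    have hA : SemiTate (ext (F ^ s)) (((p : ℂ) ^ a) ^ s) := fun i =>
      (of_span_eig (hspan (2 * i))).2 _
    by_cases hb : ∃ b, Module.End.HasEigenvalue (G (2 * b)) ((((p : ℂ) ^ a) ^ s) ^ b)
    · rw [semiTate_iff hQ0 h ⟨0, by rw [pow_zero]; exact eig_zero _⟩ hb]
      exact ⟨fun h1 => h1.2, fun h1 => ⟨hA, h1⟩⟩
    · push Not at hb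
      have hno : ∀ b, SemisimpleAt (G (2 * b)) ((((p : ℂ) ^ a) ^ s) ^ b) := by
        intro b
        refine semisimpleAt_of_eig fun x hx => ?_
        by_cases hx0 : x = 0
        · rw [hx0, map_zero, smul_zero]
        · exact absurd (hasEigenvalue_of_gen hx hx0) (hb b)
      constructor
      · intro _ b
        exact hno b
      · intro _ c
        rw [semi_iff hQ0 h]
        exact fun d b _ _ h2 => absurd h2 (hb b)

end Pool.Agent.L7h89.SS
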